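import Pool.Agent.Helper33.Meander.Kink

/-!
# Counting kinks
-/

namespace Pool.Agent.Helper33.Meander

open Finset

/-- Open meanders with `N` crossings. -/
abbrev OMs (N : ℕ) : Type := {π : ℕ → ℕ // OM N π}

/-- Restriction of an open meander to the indices below `N`. -/
def toFin {N : ℕ} (T : OMs N) : Fin N → Fin N := fun k => ⟨T.1 k, T.2.lt k k.2⟩

lemma toFin_injective {N : ℕ} : Function.Injective (toFin (N := N)) := by
  intro T T' h
  apply Subtype.ext
  funext k
  rcases Nat.lt_or_ge k N with hk | hk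
  · have := congrFun h ⟨k, hk⟩
    exact congrArg Fin.val this
  · rw [T.2.fix k hk, T'.2.fix k hk]

instance instFiniteOMs (N : ℕ) : Finite (OMs N) := Finite.of_injective _ toFin_injective

noncomputable instance instFintypeOMs (N : ℕ) : Fintype (OMs N) := Fintype.ofFinite _

/-- The number of open meanders with `N` crossings. -/
noncomputable def f (N : ℕ) : ℕ := Nat.card (OMs N)

/-- The set of kinks. -/
def KS (N : ℕ) (R : ℕ → ℕ) : Finset ℕ := (range N).filter (IsKink N R)

lemma mem_KS {N : ℕ} {R : ℕ → ℕ} {k : ℕ} : k ∈ KS N R ↔ IsKink N R k := by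
  unfold KS
  rw [mem_filter, mem_range]
  constructor
  · exact fun h => h.2
  · intro h
    exact ⟨by have := h.2.1; omega, h⟩

variable {N k : ℕ} {R T : ℕ → ℕ}

lemma isKink_ins_iff (hT : OM N T) (hk : k < N) (hk0 : k % 2 = 0) (j : ℕ) :
    IsKink (N + 2) (ins k T) j ↔
      (j < k ∧ IsKink N T j) ∨ j = k ∨ (∃ c, k ≤ c ∧ j = c + 2 ∧ IsKink N T c) := by
  have m0 := ins_mid (k := k) (T := T) (j := 0) (by norm_num)
  have m1 := ins_mid (k := k) (T := T) (j := 1) (by norm_num)
  have m2 := ins_mid (k := k) (T := T) (j := 2) (by norm_num)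
  simp only [add_zero] at m0
  rcases Nat.lt_trichotomy j k with h | h | h
  · constructor
    · rintro ⟨a, b, c, d⟩
      refine Or.inl ⟨h, a, by omega, ?_⟩
      have p0 := sh_spec (m := 3) (hT.ne_of_ne (show j ≠ k by omega))
      have p1 := sh_spec (m := 3) (hT.ne_of_ne (show j + 1 ≠ k by omega))
      rw [ins_lt (by omega), ins_lt (by omega)] at c
      rcases Nat.lt_or_ge (j + 2) k with h2 | h2
      · rw [ins_lt (by omega), ins_lt (by omega)] at d
        have p2 := sh_spec (m := 3) (hT.ne_of_ne (show j + 2 ≠ k by omega))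
        omega
      · have h3 : j + 2 = k := by omega
        rw [h3, m0, ins_lt (by omega)] at d
        rw [h3]
        omega
    · rintro (⟨_, a, b, c, d⟩ | h' | ⟨c, h1, h2, _⟩)
      · refine ⟨a, by omega, ?_, ?_⟩
        · rw [ins_lt (by omega), ins_lt (by omega)]
          have p0 := sh_spec (m := 3) (hT.ne_of_ne (show j ≠ k by omega))
          have p1 := sh_spec (m := 3) (hT.ne_of_ne (show j + 1 ≠ k by omega))
          omega
        · have p0 := sh_spec (m := 3) (hT.ne_of_ne (show j ≠ k by omega))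
          have p1 := hT.ne_of_ne (show j + 1 ≠ k by omega)
          rcases Nat.lt_or_ge (j + 2) k with h2 | h2
          · rw [ins_lt (by omega), ins_lt (by omega)]
            have p2 := sh_spec (m := 3) (hT.ne_of_ne (show j + 2 ≠ k by omega))
            omega
          · have h3 : j + 2 = k := by omega
            rw [h3] at d
            rw [h3, m0, ins_lt (by omega)]
            omega
      · omega
      · omega
  · subst h
    constructor
    · intro _; exact Or.inr (Or.inl rfl)
    · intro _; exact isKink_ins hk hk0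
  · constructor
    · rintro ⟨a, b, c, d⟩
      obtain ⟨e, rfl⟩ : ∃ e, j = e + 2 := ⟨j - 2, by omega⟩
      have he : k ≤ e := by omega
      refine Or.inr (Or.inr ⟨e, he, rfl, by omega, by omega, ?_⟩)
      rcases Nat.lt_or_ge k e with h2 | h2
      · rw [show e + 2 + 1 = (e + 1) + 2 by omega, ins_gt (by omega), ins_gt (by omega)] at c
        rw [ins_gt (by omega), ins_gt (by omega)] at d
        have p0 := sh_spec (m := 3) (hT.ne_of_ne (show e ≠ k by omega))
        have p1 := sh_spec (m := 3) (hT.ne_of_ne (show e + 1 ≠ k by omega))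
        have p2 := sh_spec (m := 3) (hT.ne_of_ne (show e + 2 ≠ k by omega))
        omega
      · obtain rfl : e = k := by omega
        rw [show e + 2 + 1 = (e + 1) + 2 by omega, ins_gt (by omega), m2] at c
        rw [ins_gt (by omega), m2] at d
        have p1 := sh_spec (m := 3) (hT.ne_of_ne (show e + 1 ≠ e by omega))
        have p2 := sh_spec (m := 3) (hT.ne_of_ne (show e + 2 ≠ e by omega))
        omega
    · rintro (⟨h', _⟩ | h' | ⟨e, h1, rfl, a, b, c, d⟩)
      · omega
      · omega
      · refine ⟨by omega, by omega, ?_, ?_⟩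
        · rw [show e + 2 + 1 = (e + 1) + 2 by omega, ins_gt (by omega)]
          have p1 := sh_spec (m := 3) (hT.ne_of_ne (show e + 1 ≠ k by omega))
          rcases Nat.lt_or_ge k e with h2 | h2
          · rw [ins_gt (by omega)]
            have p0 := sh_spec (m := 3) (hT.ne_of_ne (show e ≠ k by omega))
            omega
          · obtain rfl : e = k := by omega
            rw [m2]
            omega
        · rw [ins_gt (by omega)]
          have p1 := sh_spec (m := 3) (hT.ne_of_ne (show e + 2 ≠ k by omega))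
          have p3 := hT.ne_of_ne (show e + 1 ≠ k by omega)
          rcases Nat.lt_or_ge k e with h2 | h2
          · rw [ins_gt (by omega)]
            have p0 := sh_spec (m := 3) (hT.ne_of_ne (show e ≠ k by omega))
            omega
          · obtain rfl : e = k := by omega
            rw [m2]
            omega

lemma KS_ins (hT : OM N T) (hk : k < N) (hk0 : k % 2 = 0) :
    KS (N + 2) (ins k T) = insert k ((KS N T).image (fun j => if j < k then j else j + 2)) := by
  ext j
  rw [mem_KS, isKink_ins_iff hT hk hk0, mem_insert, mem_image]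
  constructor
  · rintro (⟨h, h'⟩ | h | ⟨c, h, h', h''⟩)
    · exact Or.inr ⟨j, mem_KS.2 h', by simp [h]⟩
    · exact Or.inl h
    · exact Or.inr ⟨c, mem_KS.2 h'', by simp [not_lt.2 h, h']⟩
  · rintro (h | ⟨c, h, h'⟩)
    · exact Or.inr (Or.inl h)
    · rw [mem_KS] at h
      by_cases hc : c < k
      · simp only [hc, if_true] at h'
        subst h'
        exact Or.inl ⟨hc, h⟩
      · simp only [hc, if_false] at h'
        exact Or.inr (Or.inr ⟨c, not_lt.1 hc, h'.symm, h⟩)

lemma card_KS_ins (hT : OM N T) (hk : k < N) (hk0 : k % 2 = 0) :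
    (KS (N + 2) (ins k T)).card = (KS N T).card + 1 := by
  rw [KS_ins hT hk hk0, card_insert_of_notMem, card_image_of_injective]
  · intro a b hab
    simp only at hab
    split_ifs at hab <;> omega
  · rw [mem_image]
    rintro ⟨c, h, h'⟩
    have := (mem_KS.1 h).1
    split_ifs at h' <;> omega

lemma sig_ext {A : Type*} {P : A → Finset ℕ} (x y : Σ R : A, {k // k ∈ P R}) (h1 : x.1 = y.1)
    (h2 : x.2.1 = y.2.1) : x = y := by
  rcases x with ⟨a, b, hb⟩
  rcases y with ⟨c, d, hd⟩
  simp only at h1 h2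
  subst h1
  subst h2
  rfl

/-- Kinks correspond to crossings of the reduced meander. -/
noncomputable def kinkEquiv (n : ℕ) (hn : 1 ≤ n) :
    (Σ R : OMs (2 * n - 1 + 2), {k // k ∈ KS (2 * n - 1 + 2) R.1}) ≃ OMs (2 * n - 1) × Fin n where
  toFun x := (⟨del x.2.1 x.1.1, x.1.2.del (mem_KS.1 x.2.2)⟩,
    ⟨x.2.1 / 2, by have := (mem_KS.1 x.2.2); have := this.2.1; omega⟩)
  invFun y := ⟨⟨ins (2 * y.2) y.1.1, y.1.2.ins (by omega) (by have := y.2.2; omega)⟩,
    ⟨2 * y.2, mem_KS.2 (isKink_ins (by have := y.2.2; omega) (by omega))⟩⟩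
  left_inv := by
    rintro ⟨⟨R, hR⟩, ⟨k, hk⟩⟩
    have hk' := mem_KS.1 hk
    have h2 : 2 * (k / 2) = k := by have := hk'.1; omega
    have h3 : ins (2 * (k / 2)) (del k R) = R := by rw [h2]; exact ins_del hR hk'
    exact sig_ext _ _ (Subtype.ext h3) h2
  right_inv := by
    rintro ⟨⟨T, hT⟩, ⟨j, hj⟩⟩
    simp only [Prod.mk.injEq]
    refine ⟨Subtype.ext (del_ins hT), ?_⟩
    apply Fin.ext
    simp

/-- Total number of kinks. -/
noncomputable def S (N : ℕ) : ℕ := ∑ R : OMs N, (KS N R.1).card

lemma S_succ (n : ℕ) (hn : 1 ≤ n) : S (2 * n - 1 + 2) = n * f (2 * n - 1) := by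
  have h := Fintype.card_congr (kinkEquiv n hn)
  rw [Fintype.card_sigma, Fintype.card_prod, Fintype.card_fin] at h
  unfold S f
  rw [Nat.card_eq_fintype_card, mul_comm n, ← h]
  refine Finset.sum_congr rfl fun R _ => ?_
  simp

lemma sum_sq (n : ℕ) (hn : 1 ≤ n) :
    ∑ R : OMs (2 * n - 1 + 2), (KS (2 * n - 1 + 2) R.1).card ^ 2 =
      n * (S (2 * n - 1) + f (2 * n - 1)) := by
  have h1 : ∑ R : OMs (2 * n - 1 + 2), (KS (2 * n - 1 + 2) R.1).card ^ 2 =
      ∑ x : (Σ R : OMs (2 * n - 1 + 2), {k // k ∈ KS (2 * n - 1 + 2) R.1}),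
        (KS (2 * n - 1 + 2) x.1.1).card := by
    rw [Fintype.sum_sigma]
    refine Finset.sum_congr rfl fun R _ => ?_
    simp [sq]
  rw [h1, ← (kinkEquiv n hn).symm.sum_comp, Fintype.sum_prod_type]
  have h2 : ∀ (T : OMs (2 * n - 1)) (j : Fin n),
      (KS (2 * n - 1 + 2) ((kinkEquiv n hn).symm (T, j)).1.1).card
        = (KS (2 * n - 1) T.1).card + 1 := by
    intro T j
    exact card_KS_ins T.2 (by have := j.2; omega) (by omega)
  simp only [h2]
  unfold S f
  rw [Nat.card_eq_fintype_card]
  simp only [Finset.sum_const, Finset.card_univ, Fintype.card_fin, smul_eq_mul]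
  rw [← Finset.mul_sum, Finset.sum_add_distrib]
  simp

lemma S_eq (n : ℕ) (hn : 1 ≤ n) : S (2 * n - 1) = (n - 1) * f (2 * (n - 1) - 1) := by
  rcases Nat.lt_or_ge 1 n with h | h
  · have := S_succ (n - 1) (by omega)
    rwa [show 2 * (n - 1) - 1 + 2 = 2 * n - 1 by omega] at this
  · obtain rfl : n = 1 := by omega
    simp only [S]
    rw [Finset.sum_eq_zero]
    · simp
    · intro R _
      rw [Finset.card_eq_zero]
      ext k
      rw [mem_KS]
      simp only [notMem_empty, iff_false]
      rintro ⟨_, h, _⟩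
      omega

/-- The Cauchy-Schwarz inequality for the number of kinks. -/
theorem main_ineq (n : ℕ) (hn : 1 ≤ n) :
    n * f (2 * n - 1) ^ 2 ≤
      f (2 * (n + 1) - 1) * ((n - 1) * f (2 * (n - 1) - 1) + f (2 * n - 1)) := by
  have h1 := S_succ n hn
  have h2 := sum_sq n hn
  rw [S_eq n hn] at h2
  have h3 : S (2 * n - 1 + 2) ^ 2 ≤
      f (2 * n - 1 + 2) * ∑ R : OMs (2 * n - 1 + 2), (KS (2 * n - 1 + 2) R.1).card ^ 2 := by
    unfold S f
    rw [Nat.card_eq_fintype_card, ← Finset.card_univ]
    exact sq_sum_le_card_mul_sum_sq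
  rw [h1, h2] at h3
  rw [show 2 * (n + 1) - 1 = 2 * n - 1 + 2 by omega]
  have h4 : n * (n * f (2 * n - 1) ^ 2) ≤
      n * (f (2 * n - 1 + 2) * ((n - 1) * f (2 * (n - 1) - 1) + f (2 * n - 1))) := by
    calc n * (n * f (2 * n - 1) ^ 2) = (n * f (2 * n - 1)) ^ 2 := by ring
      _ ≤ _ := h3
      _ = _ := by ring
  exact Nat.le_of_mul_le_mul_left h4 (by omega)

end Pool.Agent.Helper33.Meander
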