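import Pool.Agent.Helper33.Meander.Official
import Pool.Agent.Helper33.Meander.Count

/-!
# Meanders and open meanders
-/

namespace Pool.Agent.Helper33.Meander

variable {m : ℕ}

lemma NCMatching.crs {u : Fin m → Fin m} (hu : NCMatching u) {x y : Fin m} (h1 : y ≠ x)
    (h2 : y ≠ u x) : ¬ Crs (x : ℕ) (u x) y (u y) := by
  have a1 : ∀ x : Fin m, (u (u x) : ℕ) = x := fun x => congrArg Fin.val (hu.invol x)
  have nn : ∀ a b : Fin m, (a : ℕ) < b → (b : ℕ) < u a → (u b : ℕ) < u a :=
    fun a b h h' => hu.nc a b h h'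
  have b1 := nn x y
  have b2 := nn y x
  have b3 := nn (u x) y
  have b4 := nn x (u y)
  have b5 := nn (u x) (u y)
  have b6 := nn (u y) x
  have b7 := nn y (u x)
  have b8 := nn (u y) (u x)
  rw [a1] at b3 b4 b5 b6 b7 b8
  rw [a1] at b5 b8
  have n1 : (y : ℕ) ≠ x := fun h => h1 (Fin.ext h)
  have n2 : (y : ℕ) ≠ u x := fun h => h2 (Fin.ext h)
  have n3 : (u y : ℕ) ≠ x := fun h => h2 (by rw [← Fin.ext h, hu.invol])
  have n4 : (u y : ℕ) ≠ u x := fun h => h1 (by rw [← hu.invol y, Fin.ext h, hu.invol])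
  have n5 : (u y : ℕ) ≠ y := fun h => hu.ne y (Fin.ext h)
  have n6 : (u x : ℕ) ≠ x := fun h => hu.ne x (Fin.ext h)
  simp only [Crs, Btw]
  omega

/-! ### From matchings to visiting orders -/

section fwd

variable (u l : Fin m → Fin m) (x₀ : Fin m)

/-- The traversal of the curve, starting downwards. -/
def trav : ℕ → Fin m
  | 0 => x₀
  | k + 1 => if k % 2 = 0 then l (trav k) else u (trav k)

variable {u l x₀}

lemma trav_even {k : ℕ} (h : k % 2 = 0) : trav u l x₀ (k + 1) = l (trav u l x₀ k) := by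
  simp [trav, h]

lemma trav_odd {k : ℕ} (h : k % 2 = 1) : trav u l x₀ (k + 1) = u (trav u l x₀ k) := by
  simp [trav, h]

lemma trav_even' (hl : NCMatching l) {k : ℕ} (h : k % 2 = 0) :
    l (trav u l x₀ (k + 1)) = trav u l x₀ k := by
  rw [trav_even h, hl.invol]

lemma trav_odd' (hu : NCMatching u) {k : ℕ} (h : k % 2 = 1) :
    u (trav u l x₀ (k + 1)) = trav u l x₀ k := by
  rw [trav_odd h, hu.invol]

lemma trav_back (hu : NCMatching u) (hl : NCMatching l) :
    ∀ i j : ℕ, i % 2 = j % 2 → trav u l x₀ (i + 1) = trav u l x₀ (j + 1) →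
      trav u l x₀ i = trav u l x₀ j := by
  intro i j hij h
  rcases Nat.mod_two_eq_zero_or_one i with hi | hi
  · rw [← trav_even' hl hi, h, trav_even' hl (by omega)]
  · rw [← trav_odd' hu hi, h, trav_odd' hu (by omega)]

lemma trav_per (hu : NCMatching u) (hl : NCMatching l) :
    ∀ i d : ℕ, d % 2 = 0 → trav u l x₀ i = trav u l x₀ (i + d) → trav u l x₀ d = trav u l x₀ 0 := by
  intro i
  induction i with
  | zero => intro d _ h; rw [h]; simp
  | succ i ih =>
    intro d hd h
    apply ih d hd
    apply trav_back hu hl i (i + d) (by omega)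
    rw [h]
    congr 1
    omega

lemma trav_odd_ne (hu : NCMatching u) (hl : NCMatching l) :
    ∀ d i : ℕ, trav u l x₀ i ≠ trav u l x₀ (i + (2 * d + 1)) := by
  intro d
  induction d with
  | zero =>
    intro i h
    rcases Nat.mod_two_eq_zero_or_one i with hi | hi
    · rw [show i + (2 * 0 + 1) = i + 1 by omega, trav_even hi] at h
      exact hl.ne _ h.symm
    · rw [show i + (2 * 0 + 1) = i + 1 by omega, trav_odd hi] at h
      exact hu.ne _ h.symm
  | succ d ih =>
    intro i h
    apply ih (i + 1)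
    rcases Nat.mod_two_eq_zero_or_one i with hi | hi
    · rw [trav_even hi, h, show i + (2 * (d + 1) + 1) = (i + 1 + (2 * d + 1)) + 1 by omega,
        trav_even' hl (by omega)]
    · rw [trav_odd hi, h, show i + (2 * (d + 1) + 1) = (i + 1 + (2 * d + 1)) + 1 by omega,
        trav_odd' hu (by omega)]

/-- The traversal visits everything exactly once. -/
lemma trav_inj {n : ℕ} {u l : Fin (2 * n) → Fin (2 * n)} {x₀ : Fin (2 * n)}
    (hu : NCMatching u) (hl : NCMatching l) (hc : SingleCycle u l) :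
    (∀ i j, i < 2 * n → j < 2 * n → trav u l x₀ i = trav u l x₀ j → i = j) ∧
      trav u l x₀ (2 * n) = x₀ := by
  classical
  -- pigeonhole
  have hex : ∃ d, 0 < d ∧ d % 2 = 0 ∧ trav u l x₀ d = x₀ := by
    obtain ⟨i, j, hij, h⟩ : ∃ i j : Fin (2 * n + 1), i < j ∧ trav u l x₀ i = trav u l x₀ j := by
      obtain ⟨i, j, hne, h⟩ := Fintype.exists_ne_map_eq_of_card_lt
        (fun i : Fin (2 * n + 1) => trav u l x₀ i) (by simp)
      rcases lt_or_gt_of_ne hne with hlt | hlt
      · exact ⟨i, j, hlt, h⟩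
      · exact ⟨j, i, hlt, h.symm⟩
    have hij' : (i : ℕ) < j := hij
    obtain ⟨d, hd⟩ : ∃ d, (j : ℕ) = i + d := ⟨j - i, by omega⟩
    rw [hd] at h
    rcases Nat.mod_two_eq_zero_or_one d with h2 | h2
    · exact ⟨d, by omega, h2, trav_per hu hl i d h2 h⟩
    · exfalso
      apply trav_odd_ne (x₀ := x₀) hu hl (d / 2) i
      rw [h]
      congr 1
      omega
  set d := Nat.find hex with hd
  obtain ⟨hd0, hd2, hdx⟩ := Nat.find_spec hex
  rw [← hd] at hd0 hd2 hdx
  have hmin : ∀ e, 0 < e → e < d → trav u l x₀ e ≠ x₀ := by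
    intro e he hed h
    rcases Nat.mod_two_eq_zero_or_one e with h2 | h2
    · exact Nat.find_min hex (hd ▸ hed) ⟨he, h2, h⟩
    · have := trav_odd_ne (x₀ := x₀) hu hl (e / 2) 0
      apply this
      rw [show 0 + (2 * (e / 2) + 1) = e by omega, h]
      rfl
  have hinj : ∀ i j, i < j → j < d → trav u l x₀ i ≠ trav u l x₀ j := by
    intro i j hij hj h
    obtain ⟨e, rfl⟩ : ∃ e, j = i + e := ⟨j - i, by omega⟩
    rcases Nat.mod_two_eq_zero_or_one e with h2 | h2
    · exact hmin e (by omega) (by omega) (trav_per hu hl i e h2 h)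
    · apply trav_odd_ne (x₀ := x₀) hu hl (e / 2) i
      rw [h]
      congr 1
      omega
  -- the orbit is closed
  have hclosed : ∀ x, (∃ k, k < d ∧ trav u l x₀ k = x) → ∀ y, (y = u x ∨ y = l x) →
      ∃ k, k < d ∧ trav u l x₀ k = y := by
    rintro x ⟨k, hk, rfl⟩ y hy
    have hnext : ∃ k', k' < d ∧ trav u l x₀ k' = trav u l x₀ (k + 1) := by
      rcases Nat.lt_or_ge (k + 1) d with h | h
      · exact ⟨k + 1, h, rfl⟩
      · refine ⟨0, hd0, ?_⟩
        rw [show k + 1 = d by omega, hdx]
        rfl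
    have hprev : ∃ k', k' < d ∧ trav u l x₀ k' =
        (if k % 2 = 0 then u (trav u l x₀ k) else l (trav u l x₀ k)) := by
      rcases Nat.eq_zero_or_pos k with h | h
      · subst h
        refine ⟨d - 1, by omega, ?_⟩
        simp only [Nat.zero_mod, if_true]
        have h1 := trav_odd' (l := l) (x₀ := x₀) (k := d - 1) hu (by omega)
        rw [show d - 1 + 1 = d by omega, hdx] at h1
        rw [← h1]
        rfl
      · refine ⟨k - 1, by omega, ?_⟩
        split_ifs with h2
        · have h1 := trav_odd' (l := l) (x₀ := x₀) (k := k - 1) hu (by omega)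
          rw [show k - 1 + 1 = k by omega] at h1
          exact h1.symm
        · have h1 := trav_even' (u := u) (x₀ := x₀) (k := k - 1) hl (by omega)
          rw [show k - 1 + 1 = k by omega] at h1
          exact h1.symm
    rcases Nat.mod_two_eq_zero_or_one k with h2 | h2
    · rw [trav_even h2] at hnext
      rw [if_pos h2] at hprev
      rcases hy with rfl | rfl
      · exact hprev
      · exact hnext
    · rw [trav_odd h2] at hnext
      rw [if_neg (by omega)] at hprev
      rcases hy with rfl | rfl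
      · exact hnext
      · exact hprev
  have hall : ∀ y, ∃ k, k < d ∧ trav u l x₀ k = y := by
    intro y
    have := hc x₀ y
    induction this with
    | refl => exact ⟨0, hd0, rfl⟩
    | tail _ h ih => exact hclosed _ ih _ h
  have hdge : 2 * n ≤ d := by
    have hs : Function.Surjective (fun k : Fin d => trav u l x₀ k) := by
      intro y
      obtain ⟨k, hk, h⟩ := hall y
      exact ⟨⟨k, hk⟩, h⟩
    have := Fintype.card_le_of_surjective _ hs
    simpa using this
  have hdle : d ≤ 2 * n := by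
    have hi : Function.Injective (fun k : Fin d => trav u l x₀ k) := by
      intro a b hab
      rcases lt_trichotomy (a : ℕ) b with h | h | h
      · exact absurd hab (hinj a b h b.2)
      · exact Fin.ext h
      · exact absurd hab.symm (hinj b a h a.2)
    have := Fintype.card_le_of_injective _ hi
    simpa using this
  have hde : d = 2 * n := by omega
  rw [hde] at hdx hinj
  refine ⟨?_, hdx⟩
  intro i j hi hj h
  rcases lt_trichotomy i j with h1 | h1 | h1
  · exact absurd h (hinj i j h1 hj)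
  · exact h1
  · exact absurd h.symm (hinj j i h1 hi)

end fwd

/-- The open meander of a pair of matchings. -/
def toOM (n : ℕ) (u l : Fin (2 * n) → Fin (2 * n)) (x₀ : Fin (2 * n)) (k : ℕ) : ℕ :=
  if k < 2 * n then (trav u l x₀ (k + 1) : ℕ) else k

lemma toOM_lt {n : ℕ} {u l : Fin (2 * n) → Fin (2 * n)} {x₀ : Fin (2 * n)} {k : ℕ}
    (h : k < 2 * n) : toOM n u l x₀ k = (trav u l x₀ (k + 1) : ℕ) := by
  simp [toOM, h]

lemma toOM_OM {n : ℕ} (hn : 1 ≤ n) {u l : Fin (2 * n) → Fin (2 * n)} {x₀ : Fin (2 * n)}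
    (hx : (x₀ : ℕ) = 2 * n - 1) (hu : NCMatching u) (hl : NCMatching l) (hc : SingleCycle u l) :
    OM (2 * n - 1) (toOM n u l x₀) := by
  obtain ⟨hinj, hper⟩ := trav_inj (x₀ := x₀) hu hl hc
  have hinj' : ∀ i j, i < 2 * n → j < 2 * n → trav u l x₀ (i + 1) = trav u l x₀ (j + 1) →
      i = j := by
    intro i j hi hj h
    rcases Nat.lt_or_ge (i + 1) (2 * n) with h1 | h1 <;> rcases Nat.lt_or_ge (j + 1) (2 * n) with h2 | h2
    · have := hinj _ _ h1 h2 h
      omega
    · rw [show j + 1 = 2 * n by omega, hper] at h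
      have := hinj (i + 1) 0 h1 (by omega) h
      omega
    · rw [show i + 1 = 2 * n by omega, hper] at h
      have := hinj 0 (j + 1) (by omega) h2 h
      omega
    · omega
  have hlast : ∀ k, k < 2 * n - 1 → (trav u l x₀ (k + 1) : ℕ) < 2 * n - 1 := by
    intro k hk
    have h1 := (trav u l x₀ (k + 1)).2
    have h2 : (trav u l x₀ (k + 1) : ℕ) ≠ 2 * n - 1 := by
      intro h
      rw [← hx] at h
      have h3 := hinj (k + 1) 0 (by omega) (by omega) (Fin.ext h)
      omega
    omega
  refine ⟨?_, ?_, ?_, ?_, ?_⟩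
  · intro k hk
    rw [toOM_lt (by omega)]
    exact hlast k hk
  · intro k hk
    rcases Nat.lt_or_ge k (2 * n) with h | h
    · obtain rfl : k = 2 * n - 1 := by omega
      rw [toOM_lt h, show 2 * n - 1 + 1 = 2 * n by omega, hper, hx]
    · simp [toOM, not_lt.2 h]
  · intro i j hij
    rcases Nat.lt_or_ge i (2 * n) with h1 | h1 <;> rcases Nat.lt_or_ge j (2 * n) with h2 | h2
    · rw [toOM_lt h1, toOM_lt h2] at hij
      exact hinj' i j h1 h2 (Fin.ext hij)
    · rw [toOM_lt h1] at hij
      have h3 := (trav u l x₀ (i + 1)).2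
      simp only [toOM, not_lt.2 h2, if_false] at hij
      omega
    · rw [toOM_lt h2] at hij
      have h3 := (trav u l x₀ (j + 1)).2
      simp only [toOM, not_lt.2 h1, if_false] at hij
      omega
    · simpa [toOM, not_lt.2 h1, not_lt.2 h2] using hij
  · intro a b hab hb hp
    rw [toOM_lt (by omega), toOM_lt (by omega), toOM_lt (by omega), toOM_lt (by omega)]
    rcases Nat.mod_two_eq_zero_or_one a with ha | ha
    · rw [trav_odd (k := a + 1) (by omega), trav_odd (k := b + 1) (by omega)]
      apply hu.crs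
      · intro h
        have := hinj' b a (by omega) (by omega) h
        omega
      · intro h
        rw [← trav_odd (u := u) (l := l) (x₀ := x₀) (k := a + 1) (by omega)] at h
        have := hinj' b (a + 1) (by omega) (by omega) h
        omega
    · rw [trav_even (k := a + 1) (by omega), trav_even (k := b + 1) (by omega)]
      apply hl.crs
      · intro h
        have := hinj' b a (by omega) (by omega) h
        omega
      · intro h
        rw [← trav_even (u := u) (l := l) (x₀ := x₀) (k := a + 1) (by omega)] at h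
        have := hinj' b (a + 1) (by omega) (by omega) h
        omega
  · intro a ha hp
    rw [toOM_lt (by omega), toOM_lt (by omega), toOM_lt (by omega)]
    rw [trav_even (k := a + 1) (by omega), trav_even (k := 0) rfl]
    have h1 := hl.crs (x := trav u l x₀ (a + 1)) (y := trav u l x₀ 0) (by
      intro h
      have := hinj 0 (a + 1) (by omega) (by omega) h
      omega) (by
      intro h
      rw [← trav_even (u := u) (l := l) (x₀ := x₀) (k := a + 1) (by omega)] at h
      have := hinj 0 (a + 1 + 1) (by omega)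
      rcases Nat.lt_or_ge (a + 1 + 1) (2 * n) with h3 | h3
      · have := this h3 h
        omega
      · omega)
    have h2 : (trav u l x₀ 0 : ℕ) = 2 * n - 1 := hx
    have h3 := (trav u l x₀ (a + 1)).2
    have h4 := (l (trav u l x₀ (a + 1))).2
    simp only [Crs, Btw] at h1 ⊢
    omega

/-- A pair of matchings is determined by its traversal. -/
lemma eq_of_trav {n : ℕ} {u l u' l' : Fin (2 * n) → Fin (2 * n)} {x₀ : Fin (2 * n)}
    (hu : NCMatching u) (hl : NCMatching l) (hc : SingleCycle u l)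
    (hu' : NCMatching u') (hl' : NCMatching l')
    (h : ∀ k, k ≤ 2 * n → trav u l x₀ k = trav u' l' x₀ k) : u = u' ∧ l = l' := by
  obtain ⟨hinj, hper⟩ := trav_inj (x₀ := x₀) hu hl hc
  have hsurj : ∀ y, ∃ k, k < 2 * n ∧ trav u l x₀ k = y := by
    have hi : Function.Injective (fun k : Fin (2 * n) => trav u l x₀ k) := by
      intro a b hab
      exact Fin.ext (hinj a b a.2 b.2 hab)
    have hs := Finite.surjective_of_injective hi
    intro y
    obtain ⟨k, hk⟩ := hs y
    exact ⟨k, k.2, hk⟩
  have hn : 0 < 2 * n := by have := x₀.2; omega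
  constructor
  · funext y
    obtain ⟨k, hk, rfl⟩ := hsurj y
    rcases Nat.mod_two_eq_zero_or_one k with h2 | h2
    · rcases Nat.eq_zero_or_pos k with h0 | h0
      · subst h0
        have h1 := trav_odd' (l := l) (x₀ := x₀) (k := 2 * n - 1) hu (by omega)
        have h1' := trav_odd' (l := l') (x₀ := x₀) (k := 2 * n - 1) hu' (by omega)
        rw [show 2 * n - 1 + 1 = 2 * n by omega] at h1 h1'
        have h3 : trav u l x₀ 0 = trav u l x₀ (2 * n) := hper.symm
        rw [h3, h1, h (2 * n) le_rfl, h1', h _ (by omega)]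
      · have h1 := trav_odd' (l := l) (x₀ := x₀) (k := k - 1) hu (by omega)
        have h1' := trav_odd' (l := l') (x₀ := x₀) (k := k - 1) hu' (by omega)
        rw [show k - 1 + 1 = k by omega] at h1 h1'
        rw [h1, h k (by omega), h1', h _ (by omega)]
    · rw [← trav_odd (u := u) (l := l) (x₀ := x₀) h2, h _ (by omega), h _ (by omega), trav_odd h2]
  · funext y
    obtain ⟨k, hk, rfl⟩ := hsurj y
    rcases Nat.mod_two_eq_zero_or_one k with h2 | h2
    · rw [← trav_even (u := u) (l := l) (x₀ := x₀) h2, h _ (by omega), h _ (by omega), trav_even h2]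
    · have h1 := trav_even' (u := u) (x₀ := x₀) (k := k - 1) hl (by omega)
      have h1' := trav_even' (u := u') (x₀ := x₀) (k := k - 1) hl' (by omega)
      rw [show k - 1 + 1 = k by omega] at h1 h1'
      rw [h1, h k (by omega), h1', h _ (by omega)]

theorem meanders_le_f (n : ℕ) (hn : 1 ≤ n) : meanders n ≤ f (2 * n - 1) := by
  have hlt : 2 * n - 1 < 2 * n := by omega
  let x₀ : Fin (2 * n) := ⟨2 * n - 1, hlt⟩
  have h : Function.Injective
      (fun p : {p : (Fin (2 * n) → Fin (2 * n)) × (Fin (2 * n) → Fin (2 * n)) //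
        NCMatching p.1 ∧ NCMatching p.2 ∧ SingleCycle p.1 p.2} =>
      (⟨toOM n p.1.1 p.1.2 x₀, toOM_OM hn rfl p.2.1 p.2.2.1 p.2.2.2⟩ : OMs (2 * n - 1))) := by
    intro p q hpq
    have hpq' := congrArg Subtype.val hpq
    simp only at hpq'
    have : p.1.1 = q.1.1 ∧ p.1.2 = q.1.2 := by
      apply eq_of_trav (x₀ := x₀) p.2.1 p.2.2.1 p.2.2.2 q.2.1 q.2.2.1
      intro k hk
      rcases Nat.eq_zero_or_pos k with h0 | h0
      · subst h0; rfl
      · have := congrFun hpq' (k - 1)
        rw [toOM_lt (by omega), toOM_lt (by omega), show k - 1 + 1 = k by omega] at this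
        exact Fin.ext this
    exact Subtype.ext (Prod.ext this.1 this.2)
  exact Nat.card_le_card_of_injective _ h

/-! ### From visiting orders to matchings -/

section bwd

variable {n : ℕ}

/-- Upper neighbour index. -/
def up (k : ℕ) : ℕ := if k % 2 = 0 then k + 1 else k - 1

/-- Lower neighbour index (cyclic). -/
def lo (n k : ℕ) : ℕ :=
  if k % 2 = 0 then (if k = 0 then 2 * n - 1 else k - 1) else (if k + 1 = 2 * n then 0 else k + 1)

lemma up_lt {k : ℕ} (h : k < 2 * n) : up k < 2 * n := by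
  unfold up; split_ifs <;> omega

lemma lo_lt {k : ℕ} (h : k < 2 * n) : lo n k < 2 * n := by
  unfold lo; split_ifs <;> omega

/-- The permutation of the `2 n` points of an open meander with `2 n - 1` crossings. -/
noncomputable def omEquiv (T : OMs (2 * n - 1)) : Fin (2 * n) ≃ Fin (2 * n) :=
  Equiv.ofBijective (fun k => ⟨T.1 k, by
    rcases Nat.lt_or_ge (k : ℕ) (2 * n - 1) with h | h
    · have := T.2.lt k h; omega
    · rw [T.2.fix k h]; exact k.2⟩) (by
    rw [← Finite.injective_iff_bijective]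
    intro a b hab
    exact Fin.ext (T.2.inj (congrArg Fin.val hab)))

lemma omEquiv_apply (T : OMs (2 * n - 1)) (k : Fin (2 * n)) : (omEquiv T k : ℕ) = T.1 k := rfl

/-- Upper matching. -/
noncomputable def um (T : OMs (2 * n - 1)) (x : Fin (2 * n)) : Fin (2 * n) :=
  omEquiv T ⟨up ((omEquiv T).symm x), up_lt ((omEquiv T).symm x).2⟩

/-- Lower matching. -/
noncomputable def lm (T : OMs (2 * n - 1)) (x : Fin (2 * n)) : Fin (2 * n) :=
  omEquiv T ⟨lo n ((omEquiv T).symm x), lo_lt ((omEquiv T).symm x).2⟩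

lemma um_omEquiv (T : OMs (2 * n - 1)) (k : Fin (2 * n)) :
    um T (omEquiv T k) = omEquiv T ⟨up k, up_lt k.2⟩ := by
  unfold um
  simp only [Equiv.symm_apply_apply]

lemma lm_omEquiv (T : OMs (2 * n - 1)) (k : Fin (2 * n)) :
    lm T (omEquiv T k) = omEquiv T ⟨lo n k, lo_lt k.2⟩ := by
  unfold lm
  simp only [Equiv.symm_apply_apply]

lemma um_NC (T : OMs (2 * n - 1)) : NCMatching (um T) := by
  refine ⟨?_, ?_, ?_⟩
  · intro x
    obtain ⟨k, rfl⟩ := (omEquiv T).surjective x
    rw [um_omEquiv, um_omEquiv]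
    congr 1
    apply Fin.ext
    simp only [up]
    split_ifs <;> omega
  · intro x
    obtain ⟨k, rfl⟩ := (omEquiv T).surjective x
    rw [um_omEquiv]
    intro h
    have := congrArg Fin.val ((omEquiv T).injective h)
    simp only [up] at this
    split_ifs at this <;> omega
  · intro a b
    obtain ⟨i, rfl⟩ := (omEquiv T).surjective a
    obtain ⟨j, rfl⟩ := (omEquiv T).surjective b
    rw [um_omEquiv, um_omEquiv]
    simp only [Fin.lt_def, omEquiv_apply]
    have hi := i.2
    have hj := j.2
    have inj : ∀ {a b : ℕ}, a ≠ b → T.1 a ≠ T.1 b := fun h => T.2.ne_of_ne h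
    intro h1 h2
    have hij : (i : ℕ) ≠ j := by intro h; rw [h] at h1; omega
    have hij2 : up i ≠ j := by intro h; rw [h] at h2; omega
    unfold up at h2 hij2 ⊢
    rcases Nat.mod_two_eq_zero_or_one (i : ℕ) with pi | pi <;>
      rcases Nat.mod_two_eq_zero_or_one (j : ℕ) with pj | pj
    · simp only [pi, pj, if_true] at h2 hij2 ⊢
      have q1 := inj (show (i : ℕ) + 1 ≠ j + 1 by omega)
      have q2 := inj (show (i : ℕ) ≠ j + 1 by omega)
      rcases Nat.lt_or_ge (i : ℕ) j with h | h
      · have q := T.2.arcs i j h (by omega) (by omega)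
        simp only [Crs, Btw] at q
        omega
      · have q := T.2.arcs j i (by omega) (by omega) (by omega)
        simp only [Crs, Btw] at q
        omega
    · simp only [pi, pj, if_true, show ¬ (1 = 0) by omega, if_false] at h2 hij2 ⊢
      obtain ⟨j', hj'⟩ : ∃ j', (j : ℕ) = j' + 1 := ⟨j - 1, by omega⟩
      rw [hj'] at h1 h2 hij hij2 ⊢
      simp only [Nat.add_sub_cancel] at *
      have q1 := inj (show (i : ℕ) + 1 ≠ j' by omega)
      have q2 := inj (show (i : ℕ) ≠ j' by omega)
      rcases Nat.lt_or_ge (i : ℕ) j' with h | h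
      · have q := T.2.arcs i j' h (by omega) (by omega)
        simp only [Crs, Btw] at q
        omega
      · have q := T.2.arcs j' i (by omega) (by omega) (by omega)
        simp only [Crs, Btw] at q
        omega
    · simp only [pi, pj, if_true, show ¬ (1 = 0) by omega, if_false] at h2 hij2 ⊢
      obtain ⟨i', hi'⟩ : ∃ i', (i : ℕ) = i' + 1 := ⟨i - 1, by omega⟩
      rw [hi'] at h1 h2 hij hij2 ⊢
      simp only [Nat.add_sub_cancel] at *
      have q1 := inj (show i' ≠ (j : ℕ) + 1 by omega)
      have q2 := inj (show i' + 1 ≠ (j : ℕ) + 1 by omega)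
      rcases Nat.lt_or_ge i' (j : ℕ) with h | h
      · have q := T.2.arcs i' j h (by omega) (by omega)
        simp only [Crs, Btw] at q
        omega
      · have q := T.2.arcs j i' (by omega) (by omega) (by omega)
        simp only [Crs, Btw] at q
        omega
    · simp only [pi, pj, show ¬ (1 = 0) by omega, if_false] at h2 hij2 ⊢
      obtain ⟨i', hi'⟩ : ∃ i', (i : ℕ) = i' + 1 := ⟨i - 1, by omega⟩
      obtain ⟨j', hj'⟩ : ∃ j', (j : ℕ) = j' + 1 := ⟨j - 1, by omega⟩
      rw [hi', hj'] at h1 hij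
      rw [hi', hj'] at h2 hij2 ⊢
      simp only [Nat.add_sub_cancel] at *
      have q1 := inj (show i' ≠ j' by omega)
      have q2 := inj (show i' + 1 ≠ j' by omega)
      rcases Nat.lt_or_ge i' j' with h | h
      · have q := T.2.arcs i' j' h (by omega) (by omega)
        simp only [Crs, Btw] at q
        omega
      · have q := T.2.arcs j' i' (by omega) (by omega) (by omega)
        simp only [Crs, Btw] at q
        omega

lemma lo_cases {k : ℕ} (hk : k < 2 * n) :
    (∃ s, s % 2 = 1 ∧ s + 1 < 2 * n ∧ ((k = s ∧ lo n k = s + 1) ∨ (k = s + 1 ∧ lo n k = s))) ∨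
      ((k = 2 * n - 1 ∧ lo n k = 0) ∨ (k = 0 ∧ lo n k = 2 * n - 1)) := by
  unfold lo
  split_ifs with h1 h2 h2
  · right; omega
  · left; exact ⟨k - 1, by omega, by omega, by omega⟩
  · right; omega
  · left; exact ⟨k, by omega, by omega, by omega⟩

lemma lm_NC (T : OMs (2 * n - 1)) : NCMatching (lm T) := by
  have hlo : ∀ k, k < 2 * n → lo n (lo n k) = k := by
    intro k hk
    have h1 := lo_cases hk
    have h2 := lo_cases (lo_lt (n := n) hk)
    rcases h1 with ⟨s, s1, s2, s3⟩ | s3 <;> rcases h2 with ⟨r, r1, r2, r3⟩ | r3 <;> omega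
  have hlo2 : ∀ k, k < 2 * n → lo n k ≠ k := by
    intro k hk
    have h1 := lo_cases hk
    rcases h1 with ⟨s, s1, s2, s3⟩ | s3 <;> omega
  refine ⟨?_, ?_, ?_⟩
  · intro x
    obtain ⟨k, rfl⟩ := (omEquiv T).surjective x
    rw [lm_omEquiv, lm_omEquiv]
    congr 1
    exact Fin.ext (hlo k k.2)
  · intro x
    obtain ⟨k, rfl⟩ := (omEquiv T).surjective x
    rw [lm_omEquiv]
    intro h
    exact hlo2 k k.2 (congrArg Fin.val ((omEquiv T).injective h))
  · intro a b
    obtain ⟨i, rfl⟩ := (omEquiv T).surjective a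
    obtain ⟨j, rfl⟩ := (omEquiv T).surjective b
    rw [lm_omEquiv, lm_omEquiv]
    simp only [Fin.lt_def, omEquiv_apply]
    have inj : ∀ {a b : ℕ}, a ≠ b → T.1 a ≠ T.1 b := fun h => T.2.ne_of_ne h
    intro h1 h2
    have hi := i.2
    have hj := j.2
    have hij : (i : ℕ) ≠ j := by intro h; rw [h] at h1; omega
    have hij2 : lo n i ≠ j := by intro h; rw [h] at h2; omega
    have hlast : T.1 (2 * n - 1) = 2 * n - 1 := T.2.fix _ le_rfl
    have hmax : ∀ k, k < 2 * n - 1 → T.1 k < 2 * n - 1 := T.2.lt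
    rcases lo_cases hi with ⟨s, s1, s2, s3⟩ | s3 <;> rcases lo_cases hj with ⟨r, r1, r2, r3⟩ | r3
    · have hsr : s ≠ r := by
        rintro rfl
        omega
      have q1 := inj (show s ≠ r by omega)
      have q2 := inj (show s ≠ r + 1 by omega)
      have q3 := inj (show s + 1 ≠ r by omega)
      have q4 := inj (show s + 1 ≠ r + 1 by omega)
      rcases s3 with ⟨s3, s4⟩ | ⟨s3, s4⟩ <;> rcases r3 with ⟨r3, r4⟩ | ⟨r3, r4⟩ <;>
        rw [s3, r3] at h1 <;> rw [s4, r3] at h2 <;> rw [s4, r4] <;>
        rcases Nat.lt_or_ge s r with h | h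
      all_goals first
        | (have q := T.2.arcs s r h (by omega) (by omega)
           simp only [Crs, Btw] at q
           omega)
        | (have q := T.2.arcs r s (by omega) (by omega) (by omega)
           simp only [Crs, Btw] at q
           omega)
    · have q := T.2.root s (by omega) s1
      have q1 := hmax s (by omega)
      have q2 := hmax (s + 1) (by omega)
      have q3 := inj (show s ≠ 0 by omega)
      have q4 := inj (show s + 1 ≠ 0 by omega)
      rcases s3 with ⟨s3, s4⟩ | ⟨s3, s4⟩ <;> rcases r3 with ⟨r3, r4⟩ | ⟨r3, r4⟩ <;>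
        rw [s3, r3] at h1 <;> rw [s4, r3] at h2 <;> rw [s4, r4] <;>
        simp only [Btw] at q <;> omega
    · have q := T.2.root r (by omega) r1
      have q1 := hmax r (by omega)
      have q2 := hmax (r + 1) (by omega)
      have q3 := inj (show r ≠ 0 by omega)
      have q4 := inj (show r + 1 ≠ 0 by omega)
      rcases s3 with ⟨s3, s4⟩ | ⟨s3, s4⟩ <;> rcases r3 with ⟨r3, r4⟩ | ⟨r3, r4⟩ <;>
        rw [s3, r3] at h1 <;> rw [s4, r3] at h2 <;> rw [s4, r4] <;>
        simp only [Btw] at q <;> omega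
    · omega

lemma um_step (T : OMs (2 * n - 1)) {k : ℕ} (hk : k % 2 = 0) (h : k + 1 < 2 * n) :
    um T (omEquiv T ⟨k, by omega⟩) = omEquiv T ⟨k + 1, h⟩ := by
  rw [um_omEquiv]
  congr 1
  apply Fin.ext
  simp [up, hk]

lemma lm_step (T : OMs (2 * n - 1)) {k : ℕ} (hk : k % 2 = 1) (h : k + 1 < 2 * n) :
    lm T (omEquiv T ⟨k, by omega⟩) = omEquiv T ⟨k + 1, h⟩ := by
  rw [lm_omEquiv]
  congr 1
  apply Fin.ext
  show lo n k = k + 1
  unfold lo
  rw [if_neg (by omega), if_neg (by omega)]

lemma lm_last (T : OMs (2 * n - 1)) (hn : 1 ≤ n) :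
    lm T (omEquiv T ⟨2 * n - 1, by omega⟩) = omEquiv T ⟨0, by omega⟩ := by
  rw [lm_omEquiv]
  congr 1
  apply Fin.ext
  simp only [lo]
  split_ifs <;> omega

lemma cyc_T (T : OMs (2 * n - 1)) : SingleCycle (um T) (lm T) := by
  have step : ∀ k (h : k + 1 < 2 * n),
      (omEquiv T ⟨k + 1, h⟩ = um T (omEquiv T ⟨k, by omega⟩) ∨
        omEquiv T ⟨k + 1, h⟩ = lm T (omEquiv T ⟨k, by omega⟩)) := by
    intro k h
    rcases Nat.mod_two_eq_zero_or_one k with h2 | h2
    · exact Or.inl (um_step T h2 h).symm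
    · exact Or.inr (lm_step T h2 h).symm
  have up' : ∀ d k (h : k + d < 2 * n), Relation.ReflTransGen
      (fun a b => b = um T a ∨ b = lm T a) (omEquiv T ⟨k, by omega⟩) (omEquiv T ⟨k + d, h⟩) := by
    intro d
    induction d with
    | zero => intro k h; exact Relation.ReflTransGen.refl
    | succ d ih => intro k h; exact Relation.ReflTransGen.tail (ih k (by omega)) (step (k + d) h)
  have dn' : ∀ d k (h : k + d < 2 * n), Relation.ReflTransGen
      (fun a b => b = um T a ∨ b = lm T a) (omEquiv T ⟨k + d, h⟩) (omEquiv T ⟨k, by omega⟩) := by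
    intro d
    induction d with
    | zero => intro k h; exact Relation.ReflTransGen.refl
    | succ d ih =>
      intro k h
      refine Relation.ReflTransGen.head ?_ (ih k (by omega))
      rcases step (k + d) h with h1 | h1
      · left
        have h2 : omEquiv T ⟨k + (d + 1), h⟩ = um T (omEquiv T ⟨k + d, by omega⟩) := h1
        rw [h2, (um_NC T).invol]
      · right
        have h2 : omEquiv T ⟨k + (d + 1), h⟩ = lm T (omEquiv T ⟨k + d, by omega⟩) := h1
        rw [h2, (lm_NC T).invol]
  intro x y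
  obtain ⟨⟨i, hi⟩, rfl⟩ := (omEquiv T).surjective x
  obtain ⟨⟨j, hj⟩, rfl⟩ := (omEquiv T).surjective y
  rcases Nat.le_total i j with h | h
  · obtain ⟨d, rfl⟩ := Nat.exists_eq_add_of_le h
    exact up' d i hj
  · obtain ⟨d, rfl⟩ := Nat.exists_eq_add_of_le h
    exact dn' d j hi

lemma eq_of_um_lm {T T' : OMs (2 * n - 1)} (hn : 1 ≤ n) (h1 : um T = um T') (h2 : lm T = lm T') :
    T = T' := by
  have hlast : omEquiv T ⟨2 * n - 1, by omega⟩ = omEquiv T' ⟨2 * n - 1, by omega⟩ := by
    apply Fin.ext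
    rw [omEquiv_apply, omEquiv_apply]
    show T.1 (2 * n - 1) = T'.1 (2 * n - 1)
    rw [T.2.fix _ le_rfl, T'.2.fix _ le_rfl]
  have key : ∀ k (h : k < 2 * n), omEquiv T ⟨k, h⟩ = omEquiv T' ⟨k, h⟩ := by
    intro k
    induction k with
    | zero =>
      intro h
      rw [← lm_last T hn, ← lm_last T' hn, h2, hlast]
    | succ k ih =>
      intro h
      rcases Nat.mod_two_eq_zero_or_one k with hk | hk
      · rw [← um_step T hk h, ← um_step T' hk h, h1, ih (by omega)]
      · rw [← lm_step T hk h, ← lm_step T' hk h, h2, ih (by omega)]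
  apply Subtype.ext
  funext k
  rcases Nat.lt_or_ge k (2 * n) with hk | hk
  · exact congrArg Fin.val (key k hk)
  · rw [T.2.fix k (by omega), T'.2.fix k (by omega)]

end bwd

theorem f_le_meanders (n : ℕ) (hn : 1 ≤ n) : f (2 * n - 1) ≤ meanders n := by
  have h : Function.Injective
      (fun T : OMs (2 * n - 1) => (⟨(um T, lm T), um_NC T, lm_NC T, cyc_T T⟩ :
        {p : (Fin (2 * n) → Fin (2 * n)) × (Fin (2 * n) → Fin (2 * n)) //
        NCMatching p.1 ∧ NCMatching p.2 ∧ SingleCycle p.1 p.2})) := by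
    intro T T' h
    have h' := congrArg Subtype.val h
    simp only [Prod.mk.injEq] at h'
    exact eq_of_um_lm hn h'.1 h'.2
  exact Nat.card_le_card_of_injective _ h

theorem meanders_eq_f (n : ℕ) (hn : 1 ≤ n) : meanders n = f (2 * n - 1) :=
  le_antisymm (meanders_le_f n hn) (f_le_meanders n hn)

end Pool.Agent.Helper33.Meander
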