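import Mathlib

/-!
# Meanders: basic definitions (MP_fda85d_co)

`OM N` (`N` odd) is the set of open meanders with `N` crossings, described by the order in which
the curve visits the positions `0, ..., N - 1` of the line; the position `N` stands for the
crossing at infinity of the closed meander.
-/

namespace Pool.Agent.Helper33.Meander

/-- `c` lies strictly between `a` and `b`. -/
def Btw (a b c : ℕ) : Prop := (a < c ∧ c < b) ∨ (b < c ∧ c < a)

/-- The arcs `{a, b}` and `{c, d}` cross. -/
def Crs (a b c d : ℕ) : Prop := (Btw a b c ∧ ¬ Btw a b d) ∨ (¬ Btw a b c ∧ Btw a b d)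

/-- Open meanders with `N` crossings: `π k` is the position on the line of the `k`-th crossing of
the curve; upper arcs join `π k` and `π (k + 1)` for `k` even, lower arcs for `k` odd; the
crossing at infinity has number `N` and position `N`. -/
structure OM (N : ℕ) (π : ℕ → ℕ) : Prop where
  lt : ∀ k < N, π k < N
  fix : ∀ k, N ≤ k → π k = k
  inj : Function.Injective π
  arcs : ∀ a b, a < b → b < N → a % 2 = b % 2 → ¬ Crs (π a) (π (a + 1)) (π b) (π (b + 1))
  root : ∀ a < N, a % 2 = 1 → ¬ Btw (π a) (π (a + 1)) (π 0)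

/-- Make room for `m - 1` new positions after the position `v`. -/
def sh (m v w : ℕ) : ℕ := if w < v then w else w + (m - 1)

/-- Replace the `i`-th crossing of `T` by the open meander `X` with `m` crossings. -/
def infl (m i : ℕ) (X T : ℕ → ℕ) (k : ℕ) : ℕ :=
  if k < i then sh m (T i) (T k)
  else if k < i + m then T i + X (k - i)
  else sh m (T i) (T (k - (m - 1)))

lemma infl_left {m i : ℕ} {X T : ℕ → ℕ} {k : ℕ} (h : k < i) :
    infl m i X T k = sh m (T i) (T k) := by simp [infl, h]

lemma infl_mid {m i : ℕ} {X T : ℕ → ℕ} {k : ℕ} (h : k < m) :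
    infl m i X T (i + k) = T i + X k := by
  simp [infl, h]

lemma infl_right {m i : ℕ} {X T : ℕ → ℕ} {k : ℕ} (hm : 1 ≤ m) (h : i < k) :
    infl m i X T (k + (m - 1)) = sh m (T i) (T k) := by
  have h1 : ¬ (k + (m - 1) < i) := by omega
  have h2 : ¬ (k + (m - 1) < i + m) := by omega
  simp [infl, h1, h2]

/-- Facts about `sh` in a form that `omega` can use. -/
lemma sh_spec {m v w : ℕ} (h : w ≠ v) :
    (w < v ∧ sh m v w = w) ∨ (v < w ∧ sh m v w = w + (m - 1)) := by
  unfold sh
  split_ifs <;> omega

end Pool.Agent.Helper33.Meander
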