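import Pool.Agent.Helper33.Meander.Tail

/-!
# Consequences for the critical exponent
-/

namespace Pool.Agent.Helper33.Meander

open Filter Topology Asymptotics

lemma mu_le : mu ≤ 16 := by
  have h1 : Tendsto (fun n : ℕ => L n / n) atTop (𝓝 ell) := tendsto_L
  have h2 : Tendsto (fun n : ℕ => ((n : ℝ) + 1) / n * Real.log 16) atTop (𝓝 (1 * Real.log 16)) := by
    apply Tendsto.mul_const
    have := tendsto_natCast_div_add_atTop (1 : ℝ)
    have h3 := this.inv₀ one_ne_zero
    rw [inv_one] at h3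
    refine h3.congr fun n => ?_
    rw [inv_div]
  have h3 : ell ≤ 1 * Real.log 16 := by
    refine le_of_tendsto_of_tendsto h1 h2 ?_
    filter_upwards [eventually_ge_atTop 1] with n hn
    have hn' : (0 : ℝ) < n := by exact_mod_cast hn
    rw [div_le_iff₀ hn']
    have := L_le n
    field_simp
    exact this
  unfold mu
  rw [one_mul] at h3
  calc Real.exp ell ≤ Real.exp (Real.log 16) := Real.exp_le_exp.2 h3
    _ = 16 := Real.exp_log (by norm_num)

/-- Summability at the critical point. -/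
lemma summable_crit : Summable (fun n : ℕ => (meanders n : ℝ) / mu ^ n) := by
  have hmu := mu_pos
  refine summable_of_sum_range_le (c := (meanders 0 : ℝ) / mu ^ 0 + 40 * Real.sqrt mu / Real.sqrt 1)
    (fun n => by positivity) (fun K => ?_)
  rcases Nat.eq_zero_or_pos K with h | h
  · subst h
    rw [Finset.range_zero, Finset.sum_empty]
    positivity
  · rw [Finset.range_eq_Ico, Finset.sum_eq_sum_Ico_succ_bot h]
    have := meanders_tail' 1 K (le_refl 1)
    simp only [Nat.cast_one] at this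
    simp only [zero_add]
    gcongr

lemma tail_tsum (m : ℕ) (hm : 1 ≤ m) :
    ∑' n : ℕ, (meanders (n + m) : ℝ) / mu ^ (n + m) ≤ 40 * Real.sqrt mu / Real.sqrt m := by
  have hmu := mu_pos
  have h := (summable_nat_add_iff m).2 summable_crit
  refine h.tsum_le_of_sum_range_le (fun K => ?_)
  have h1 := meanders_tail' m (K + m) hm
  have h2 : ∑ n ∈ Finset.Ico m (K + m), (meanders n : ℝ) / mu ^ n =
      ∑ n ∈ Finset.range K, (meanders (n + m) : ℝ) / mu ^ (n + m) := by
    rw [Finset.range_eq_Ico, Finset.sum_Ico_add' (fun n => (meanders n : ℝ) / mu ^ n), zero_add]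
  rw [← h2]
  exact h1

/-- If `M_n ~ C R ^ (2 n) / n ^ α` then `R ^ 2 = μ`. -/
lemma radius_eq {C R α : ℝ} (hC : 0 < C) (hR : 0 < R)
    (h : (fun n : ℕ => (meanders n : ℝ)) ~[atTop] fun n : ℕ => C * R ^ (2 * n) / (n : ℝ) ^ α) :
    R ^ 2 = mu := by
  have hne : ∀ᶠ n : ℕ in atTop, C * R ^ (2 * n) / (n : ℝ) ^ α ≠ 0 := by
    filter_upwards [eventually_ge_atTop 1] with n hn
    have hn' : (0 : ℝ) < n := by exact_mod_cast hn
    positivity
  have h1 := (isEquivalent_iff_tendsto_one hne).1 h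
  have h2 := h1.comp (tendsto_add_atTop_nat 1)
  have h3 := h2.div h1 one_ne_zero
  have h4 : Tendsto (fun n : ℕ => ((n : ℝ) / (n + 1)) ^ α) atTop (𝓝 (1 ^ α)) := by
    have h5 := tendsto_natCast_div_add_atTop (1 : ℝ)
    exact ((Real.continuousAt_rpow_const 1 α (Or.inl one_ne_zero)).tendsto).comp h5
  rw [Real.one_rpow] at h4
  have h6 := (h3.mul h4).mul_const (R ^ 2)
  rw [div_one, one_mul, one_mul] at h6
  refine tendsto_nhds_unique (h6.congr' ?_) tendsto_ratio
  filter_upwards [eventually_ge_atTop 1] with n hn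
  have hn' : (0 : ℝ) < n := by exact_mod_cast hn
  have hM : (0 : ℝ) < meanders n := by
    rw [meanders_eq_f n hn]
    exact fR_pos _
  simp only [Function.comp, Pi.div_apply]
  rw [Real.div_rpow hn'.le (by positivity)]
  have e1 : (0 : ℝ) < (n : ℝ) ^ α := by positivity
  have e2 : (0 : ℝ) < ((n : ℝ) + 1) ^ α := by positivity
  push_cast
  rw [show 2 * (n + 1) = 2 * n + 2 by ring, pow_add]
  field_simp

/-- If `M_n ~ C R ^ (2 n) / n ^ α` then `α ≥ 3 / 2`. -/
lemma exponent_ge {C R α : ℝ} (hC : 0 < C) (hR : 0 < R)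
    (h : (fun n : ℕ => (meanders n : ℝ)) ~[atTop] fun n : ℕ => C * R ^ (2 * n) / (n : ℝ) ^ α) :
    3 / 2 ≤ α := by
  by_contra hcon
  push Not at hcon
  have hmuR := radius_eq hC hR h
  have hmu := mu_pos
  have hne : ∀ᶠ n : ℕ in atTop, C * R ^ (2 * n) / (n : ℝ) ^ α ≠ 0 := by
    filter_upwards [eventually_ge_atTop 1] with n hn
    have hn' : (0 : ℝ) < n := by exact_mod_cast hn
    positivity
  have h1 := (isEquivalent_iff_tendsto_one hne).1 h
  have h2 : ∀ᶠ n : ℕ in atTop, C / 2 / (n : ℝ) ^ α ≤ (meanders n : ℝ) / mu ^ n := by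
    have h3 := h1.eventually (eventually_gt_nhds (show (1 : ℝ) / 2 < 1 by norm_num))
    filter_upwards [h3, eventually_ge_atTop 1] with n h3 hn
    have hn' : (0 : ℝ) < n := by exact_mod_cast hn
    have e1 : (0 : ℝ) < (n : ℝ) ^ α := by positivity
    simp only [Pi.div_apply] at h3
    rw [lt_div_iff₀ (by positivity)] at h3
    rw [le_div_iff₀ (by positivity), ← hmuR, ← pow_mul]
    refine le_trans (le_of_eq ?_) h3.le
    ring
  obtain ⟨N, hN⟩ := eventually_atTop.1 h2
  -- constants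
  set c : ℝ := min 1 ((2 : ℝ) ^ (-α)) with hc
  have hc0 : 0 < c := lt_min one_pos (by positivity)
  have hlow : ∀ m : ℕ, 1 ≤ m → ∀ n : ℕ, m ≤ n → n < 2 * m →
      c * (m : ℝ) ^ (-α) ≤ ((n : ℝ) ^ α)⁻¹ := by
    intro m hm n hn1 hn2
    have hm' : (0 : ℝ) < m := by exact_mod_cast hm
    have hn1' : (m : ℝ) ≤ n := by exact_mod_cast hn1
    have hn2' : (n : ℝ) ≤ 2 * m := by
      have : (n : ℝ) < 2 * m := by exact_mod_cast hn2
      exact this.le
    have hn' : (0 : ℝ) < n := by linarith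
    rw [← Real.rpow_neg hn'.le]
    rcases le_total α 0 with ha | ha
    · calc c * (m : ℝ) ^ (-α) ≤ 1 * (m : ℝ) ^ (-α) := by
            gcongr
            exact min_le_left _ _
        _ = (m : ℝ) ^ (-α) := one_mul _
        _ ≤ (n : ℝ) ^ (-α) := Real.rpow_le_rpow hm'.le hn1' (by linarith)
    · calc c * (m : ℝ) ^ (-α) ≤ (2 : ℝ) ^ (-α) * (m : ℝ) ^ (-α) := by
            gcongr
            exact min_le_right _ _
        _ = (2 * (m : ℝ)) ^ (-α) := (Real.mul_rpow (by norm_num) hm'.le).symm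
        _ ≤ (n : ℝ) ^ (-α) := Real.rpow_le_rpow_of_nonpos hn' hn2' (by linarith)
  have hkey : ∀ m : ℕ, 1 ≤ m → N ≤ m →
      (m : ℝ) ^ (3 / 2 - α) ≤ 40 * Real.sqrt mu / (C / 2 * c) := by
    intro m hm hNm
    have hm' : (0 : ℝ) < m := by exact_mod_cast hm
    have h3 := meanders_tail' m (2 * m) hm
    have h4 : (m : ℝ) * (C / 2 * (c * (m : ℝ) ^ (-α))) ≤
        ∑ n ∈ Finset.Ico m (2 * m), (meanders n : ℝ) / mu ^ n := by
      have h5 : ∑ n ∈ Finset.Ico m (2 * m), C / 2 * (c * (m : ℝ) ^ (-α)) ≤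
          ∑ n ∈ Finset.Ico m (2 * m), (meanders n : ℝ) / mu ^ n := by
        apply Finset.sum_le_sum
        intro n hn
        have hn' := Finset.mem_Ico.1 hn
        refine le_trans ?_ (hN n (by omega))
        rw [div_eq_mul_inv (C / 2)]
        apply mul_le_mul_of_nonneg_left _ (by positivity)
        exact hlow m hm n hn'.1 hn'.2
      rw [Finset.sum_const, Nat.card_Ico, nsmul_eq_mul, show 2 * m - m = m by omega] at h5
      exact h5
    have h5 := h4.trans h3
    have hs : 0 < Real.sqrt m := Real.sqrt_pos.2 hm'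
    rw [le_div_iff₀ hs] at h5
    rw [le_div_iff₀ (by positivity)]
    refine le_trans (le_of_eq ?_) h5
    have e : (m : ℝ) ^ (3 / 2 - α) = m * (m : ℝ) ^ (-α) * Real.sqrt m := by
      rw [Real.sqrt_eq_rpow, show (3 : ℝ) / 2 - α = 1 + (-α) + 1 / 2 by ring,
        Real.rpow_add hm', Real.rpow_add hm', Real.rpow_one]
    rw [e]
    ring
  have ht : Tendsto (fun m : ℕ => (m : ℝ) ^ (3 / 2 - α)) atTop atTop :=
    (tendsto_rpow_atTop (by linarith)).comp tendsto_natCast_atTop_atTop
  obtain ⟨M, hM⟩ := eventually_atTop.1 (ht.eventually_gt_atTop (40 * Real.sqrt mu / (C / 2 * c)))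
  have hA := hM (max M (max N 1)) (le_max_left _ _)
  have hB := hkey (max M (max N 1)) ((le_max_right _ _).trans (le_max_right _ _))
    ((le_max_left _ _).trans (le_max_right _ _))
  linarith

end Pool.Agent.Helper33.Meander
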