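import Mathlib

/-!
# A ratio limit lemma
-/

namespace Pool.Agent.Helper33.Meander

open Filter Topology

/-- If `L n / n → ℓ` and the numbers `ψ n = exp (L (n - 1) - L n)` satisfy
`(n + 1) ψ (n + 1) ≤ n ψ n + 1`, then `L (n + 1) - L n → ℓ`. -/
theorem ratio_limit {L : ℕ → ℝ} {ℓ : ℝ} (hL : Tendsto (fun n : ℕ => L n / n) atTop (𝓝 ℓ))
    (h : ∀ n : ℕ, 1 ≤ n → ((n : ℝ) + 1) * Real.exp (L n - L (n + 1)) ≤
      n * Real.exp (L (n - 1) - L n) + 1) :
    Tendsto (fun n : ℕ => L (n + 1) - L n) atTop (𝓝 ℓ) := by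
  -- iterate the inequality
  have hit : ∀ k n : ℕ, 1 ≤ n → ((n : ℝ) + k) * Real.exp (L (n + k - 1) - L (n + k)) ≤
      n * Real.exp (L (n - 1) - L n) + k := by
    intro k
    induction k with
    | zero => intro n _; simp
    | succ k ih =>
      intro n hn
      have h1 := ih n hn
      have h2 := h (n + k) (by omega)
      push_cast at h2 ⊢
      rw [show n + (k + 1) - 1 = n + k by omega, show n + (k + 1) = n + k + 1 by omega]
      linarith
  -- bounds for L
  have hb : ∀ η : ℝ, 0 < η → ∃ n₀ : ℕ, ∀ n ≥ n₀, n * (ℓ - η) ≤ L n ∧ L n ≤ n * (ℓ + η) := by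
    intro η hη
    have := (Metric.tendsto_atTop.1 hL) η hη
    obtain ⟨n₀, hn₀⟩ := this
    refine ⟨max n₀ 1, fun n hn => ?_⟩
    have h1 := hn₀ n (le_trans (le_max_left _ _) hn)
    rw [Real.dist_eq, abs_lt] at h1
    have hn1 : 1 ≤ n := le_trans (le_max_right _ _) hn
    have hn0 : (0 : ℝ) < n := by exact_mod_cast hn1
    have h2 : L n / n * n = L n := by field_simp
    constructor
    · nlinarith [h1.1]
    · nlinarith [h1.2]
  rw [Metric.tendsto_atTop]
  intro ε hε
  -- upper part
  have hup : ∃ n₀ : ℕ, ∀ n ≥ n₀, L (n + 1) - L n ≤ ℓ + ε / 2 := by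
    set q : ℝ := Real.exp (-ℓ - ε / 2) with hq
    set q' : ℝ := Real.exp (-ℓ - ε / 4) with hq'
    have hqq : q < q' := Real.exp_lt_exp.2 (by linarith)
    set δ : ℝ := q' - q with hδ
    have hδ0 : 0 < δ := sub_pos.2 hqq
    set η : ℝ := δ * ε / (16 * (2 + δ)) with hη
    have hη0 : 0 < η := by positivity
    obtain ⟨n₀, hn₀⟩ := hb η hη0
    obtain ⟨n₁, hn₁⟩ := exists_nat_gt (2 / δ)
    refine ⟨max n₀ n₁ + 1, fun n hn => ?_⟩
    by_contra hcon
    push Not at hcon
    have hnn0 : n₀ ≤ n := by have := le_max_left n₀ n₁; omega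
    have hnn1 : n₁ ≤ n := by have := le_max_right n₀ n₁; omega
    have hn1 : 1 ≤ n := by omega
    -- work with p = n + 1
    have hψ : Real.exp (L n - L (n + 1)) < q := Real.exp_lt_exp.2 (by linarith)
    set k : ℕ := ⌊δ * ((n : ℝ) + 1)⌋₊ with hk
    have hnpos : (0 : ℝ) < (n : ℝ) + 1 := by positivity
    have hkle : (k : ℝ) ≤ δ * ((n : ℝ) + 1) := Nat.floor_le (by positivity)
    have hkgt : δ * ((n : ℝ) + 1) < k + 1 := Nat.lt_floor_add_one _
    have hstep : ∀ j ≤ k, ℓ + ε / 4 ≤ L (n + 1 + j) - L (n + j) := by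
      intro j hj
      have h1 := hit j (n + 1) (by omega)
      rw [show n + 1 - 1 = n by omega, show n + 1 + j - 1 = n + j by omega] at h1
      push_cast at h1
      have hjk : (j : ℝ) ≤ δ * ((n : ℝ) + 1) := le_trans (by exact_mod_cast hj) hkle
      have hjn : (0 : ℝ) < (n : ℝ) + 1 + j := by positivity
      have h2 : Real.exp (L (n + j) - L (n + 1 + j)) ≤ q + δ := by
        by_contra h3
        push Not at h3
        have h4 : ((n : ℝ) + 1 + j) * (q + δ) < ((n : ℝ) + 1 + j) *
            Real.exp (L (n + j) - L (n + 1 + j)) := by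
          exact mul_lt_mul_of_pos_left h3 hjn
        have h5 : ((n : ℝ) + 1) * Real.exp (L n - L (n + 1)) ≤ ((n : ℝ) + 1) * q := by
          exact mul_le_mul_of_nonneg_left hψ.le hnpos.le
        have hq0 : 0 < q := Real.exp_pos _
        have hj0 : (0 : ℝ) ≤ j := Nat.cast_nonneg j
        nlinarith [mul_nonneg hj0 hq0.le, mul_nonneg hj0 hδ0.le]
      have h3 : q + δ = q' := by rw [hδ]; ring
      rw [h3, hq', Real.exp_le_exp] at h2
      linarith
    have hsum : ∀ j ≤ k, (j : ℝ) * (ℓ + ε / 4) ≤ L (n + j) - L n := by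
      intro j
      induction j with
      | zero => intro _; simp
      | succ j ih =>
        intro hj
        have h1 := ih (by omega)
        have h2 := hstep j (by omega)
        rw [show n + (j + 1) = n + 1 + j by omega]
        push_cast
        linarith
    have h1 := hsum k le_rfl
    have h2 := (hn₀ (n + k) (by omega)).2
    have h3 := (hn₀ n hnn0).1
    push_cast at h2
    have h4 : (k : ℝ) * (ε / 4) ≤ η * (2 * n + k) := by nlinarith
    have hnδ : 2 / δ < n := lt_of_lt_of_le hn₁ (by exact_mod_cast hnn1)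
    have h5 : 2 < δ * n := by
      rw [div_lt_iff₀ hδ0] at hnδ
      linarith
    have h6 : δ * n / 2 ≤ k := by nlinarith
    have hn0 : (0 : ℝ) < n := by exact_mod_cast hn1
    have hn1r : (1 : ℝ) ≤ n := by exact_mod_cast hn1
    have hδn : δ * 1 ≤ δ * n := mul_le_mul_of_nonneg_left hn1r hδ0.le
    have h7' : 2 * (n : ℝ) + k < (2 + δ) * n * 2 := by
      have e1 : (2 + δ) * (n : ℝ) * 2 = 4 * n + 2 * (δ * n) := by ring
      rw [e1]
      linarith
    have h8 : η * ((2 + δ) * n * 2) = δ * ε * n / 8 := by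
      rw [hη]
      field_simp
      ring
    have h9 : δ * n / 2 * (ε / 4) ≤ k * (ε / 4) := mul_le_mul_of_nonneg_right h6 (by positivity)
    have h10 : η * (2 * n + k) < η * ((2 + δ) * n * 2) := mul_lt_mul_of_pos_left h7' hη0
    rw [h8] at h10
    linarith
  -- lower part
  have hlo : ∃ n₀ : ℕ, ∀ n ≥ n₀, ℓ - ε / 2 ≤ L (n + 1) - L n := by
    set q : ℝ := Real.exp (-ℓ + ε / 2) with hq
    set q' : ℝ := Real.exp (-ℓ + ε / 4) with hq'
    have hqq : q' < q := Real.exp_lt_exp.2 (by linarith)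
    set δ : ℝ := min (1 / 4) ((q - q') / 4) with hδ
    have hδ0 : 0 < δ := lt_min (by norm_num) (by linarith)
    have hδ1 : δ ≤ 1 / 4 := min_le_left _ _
    have hδ2 : δ ≤ (q - q') / 4 := min_le_right _ _
    set η : ℝ := δ * ε / 64 with hη
    have hη0 : 0 < η := by positivity
    obtain ⟨n₀, hn₀⟩ := hb η hη0
    obtain ⟨n₁, hn₁⟩ := exists_nat_gt (2 / δ)
    refine ⟨2 * n₀ + n₁ + 4, fun n hn => ?_⟩
    by_contra hcon
    push Not at hcon
    have hψ : q < Real.exp (L n - L (n + 1)) := Real.exp_lt_exp.2 (by linarith)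
    set k : ℕ := ⌊δ * (n : ℝ)⌋₊ with hk
    have hn0 : (0 : ℝ) < n := by
      have : 0 < n := by omega
      exact_mod_cast this
    have hkle : (k : ℝ) ≤ δ * (n : ℝ) := Nat.floor_le (by positivity)
    have hkgt : δ * (n : ℝ) < k + 1 := Nat.lt_floor_add_one _
    have hk4 : (k : ℝ) ≤ n / 4 := by nlinarith
    have hk4' : 4 * k ≤ n := by
      have : (4 * k : ℝ) ≤ n := by linarith
      exact_mod_cast this
    have hstep : ∀ j ≤ k, L (n + 1 - j) - L (n - j) ≤ ℓ - ε / 4 := by
      intro j hj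
      have h1 := hit j (n + 1 - j) (by omega)
      rw [show n + 1 - j - 1 = n - j by omega, show n + 1 - j + j - 1 = n by omega,
        show n + 1 - j + j = n + 1 by omega] at h1
      have hcast : ((n + 1 - j : ℕ) : ℝ) = (n : ℝ) + 1 - j := by
        rw [Nat.cast_sub (by omega)]
        push_cast
        ring
      rw [hcast] at h1
      have hjk : (j : ℝ) ≤ δ * (n : ℝ) := le_trans (by exact_mod_cast hj) hkle
      have hj0 : (0 : ℝ) ≤ j := Nat.cast_nonneg j
      have hjn : (0 : ℝ) < (n : ℝ) + 1 - j := by nlinarith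
      have h2 : q' ≤ Real.exp (L (n - j) - L (n + 1 - j)) := by
        by_contra h3
        push Not at h3
        have h4 : ((n : ℝ) + 1 - j) * Real.exp (L (n - j) - L (n + 1 - j)) <
            ((n : ℝ) + 1 - j) * q' := mul_lt_mul_of_pos_left h3 hjn
        have h5 : ((n : ℝ) + 1) * q < ((n : ℝ) + 1) * Real.exp (L n - L (n + 1)) :=
          mul_lt_mul_of_pos_left hψ (by positivity)
        have h6 : ((n : ℝ) + 1 - j + j) = (n : ℝ) + 1 := by ring
        rw [h6] at h1
        have hq0 : 0 < q' := Real.exp_pos _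
        nlinarith [mul_nonneg hj0 hq0.le]
      rw [hq', Real.exp_le_exp] at h2
      linarith
    have hsum : ∀ j ≤ k, L (n + 1) - L (n + 1 - j) ≤ (j : ℝ) * (ℓ - ε / 4) := by
      intro j
      induction j with
      | zero => intro _; simp
      | succ j ih =>
        intro hj
        have h1 := ih (by omega)
        have h2 := hstep j (by omega)
        rw [show n + 1 - (j + 1) = n - j by omega]
        push_cast
        linarith
    have h1 := hsum k le_rfl
    have h2 := (hn₀ (n + 1 - k) (by omega)).2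
    have h3 := (hn₀ (n + 1) (by omega)).1
    have hcast : ((n + 1 - k : ℕ) : ℝ) = (n : ℝ) + 1 - k := by
      rw [Nat.cast_sub (by omega)]
      push_cast
      ring
    rw [hcast] at h2
    push_cast at h3
    have h4 : (k : ℝ) * (ε / 4) ≤ η * (2 * (n + 1) - k) := by nlinarith
    have hnδ : 2 / δ < n := lt_of_lt_of_le hn₁ (by
      have : n₁ ≤ n := by omega
      exact_mod_cast this)
    have h5 : 2 < δ * n := by
      rw [div_lt_iff₀ hδ0] at hnδ
      linarith
    have h6 : δ * n / 2 ≤ k := by nlinarith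
    have hn1 : (1 : ℝ) ≤ n := by
      have : 1 ≤ n := by omega
      exact_mod_cast this
    have hk0 : (0 : ℝ) ≤ k := Nat.cast_nonneg k
    have h7 : η * (2 * (n + 1) - k) ≤ η * (4 * n) := by
      apply mul_le_mul_of_nonneg_left _ hη0.le
      linarith
    have h8 : η * (4 * n) = δ * ε * n / 16 := by
      rw [hη]
      ring
    have h9 : δ * n / 2 * (ε / 4) ≤ k * (ε / 4) := mul_le_mul_of_nonneg_right h6 (by positivity)
    have h10 : 0 < δ * ε * n := by positivity
    nlinarith
  obtain ⟨n₁, h₁⟩ := hup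
  obtain ⟨n₂, h₂⟩ := hlo
  refine ⟨max n₁ n₂, fun n hn => ?_⟩
  have a1 := h₁ n (le_trans (le_max_left _ _) hn)
  have a2 := h₂ n (le_trans (le_max_right _ _) hn)
  rw [Real.dist_eq, abs_lt]
  constructor <;> linarith

end Pool.Agent.Helper33.Meander
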