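import Pool.Agent.Helper33.Meander.Count

/-!
# Injectivity of inflation and supermultiplicativity
-/

namespace Pool.Agent.Helper33.Meander

variable {N m i : ℕ} {X X' T T' : ℕ → ℕ}

lemma OM.surj (hT : OM N T) {w : ℕ} (hw : w < N) : ∃ k < N, T k = w := by
  have hi : Function.Injective (toFin ⟨T, hT⟩) := by
    intro a b hab
    exact Fin.ext (hT.inj (congrArg Fin.val hab))
  obtain ⟨k, hk⟩ := (Finite.surjective_of_injective hi) ⟨w, hw⟩
  exact ⟨k, k.2, congrArg Fin.val hk⟩

lemma OM.ext' (hT : OM N T) (hT' : OM N T') (h : ∀ k < N, T k = T' k) : T = T' := by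
  funext k
  rcases Nat.lt_or_ge k N with hk | hk
  · exact h k hk
  · rw [hT.fix k hk, hT'.fix k hk]

/-- Values of an inflation inside the block determine the block, up to the base value. -/
lemma block_eq {b v v' : ℕ} {B B' : ℕ → ℕ} (hb : 1 ≤ b) (hB : OM b B) (hB' : OM b B')
    (h : ∀ j < b, v + B j = v' + B' j) : v = v' ∧ B = B' := by
  obtain ⟨j, hj, h0⟩ := hB.surj (show 0 < b by omega)
  obtain ⟨j', hj', h0'⟩ := hB'.surj (show 0 < b by omega)
  have h1 := h j hj
  have h2 := h j' hj'
  have hv : v = v' := by omega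
  refine ⟨hv, hB.ext' hB' ?_⟩
  intro k hk
  have := h k hk
  omega

lemma infl_outer_eq (hm : 1 ≤ m) (hT : OM N T) (hT' : OM N T') (hv : T i = T' i)
    (h : infl m i X T = infl m i X' T') : T = T' := by
  funext j
  rcases Nat.lt_trichotomy j i with hj | hj | hj
  · have h1 := congrFun h j
    rw [infl_left hj, infl_left hj, ← hv] at h1
    have p1 := sh_spec (m := m) (hT.ne_of_ne (show j ≠ i by omega))
    have p2 := sh_spec (m := m) (hT'.ne_of_ne (show j ≠ i by omega))
    rw [← hv] at p2
    omega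
  · rw [hj]; exact hv
  · have h1 := congrFun h (j + (m - 1))
    rw [infl_right hm hj, infl_right hm hj, ← hv] at h1
    have p1 := sh_spec (m := m) (hT.ne_of_ne (show j ≠ i by omega))
    have p2 := sh_spec (m := m) (hT'.ne_of_ne (show j ≠ i by omega))
    rw [← hv] at p2
    omega

lemma infl_inj (hm : 1 ≤ m) (hX : OM m X) (hX' : OM m X') (hT : OM N T) (hT' : OM N T')
    (h : infl m i X T = infl m i X' T') : X = X' ∧ T = T' := by
  have h1 : ∀ j < m, T i + X j = T' i + X' j := by
    intro j hj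
    have := congrFun h (i + j)
    rwa [infl_mid hj, infl_mid hj] at this
  obtain ⟨hv, hXX⟩ := block_eq hm hX hX' h1
  exact ⟨hXX, infl_outer_eq hm hT hT' hv h⟩

theorem f_super (a b : ℕ) : f (2 * a + 1) * f (2 * b + 1) ≤ f (2 * (a + b) + 1) := by
  have h : Function.Injective
      (fun p : OMs (2 * a + 1) × OMs (2 * b + 1) =>
        (⟨infl (2 * b + 1) 0 p.2.1 p.1.1, by
          have := OM.infl (i := 0) (by omega) (by omega) p.2.2 p.1.2 (by omega)
          rwa [show 2 * a + 1 + (2 * b + 1 - 1) = 2 * (a + b) + 1 by omega] at this⟩ :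
          OMs (2 * (a + b) + 1))) := by
    intro p q hpq
    have h1 := congrArg Subtype.val hpq
    simp only at h1
    obtain ⟨h2, h3⟩ := infl_inj (by omega) p.2.2 q.2.2 p.1.2 q.1.2 h1
    exact Prod.ext (Subtype.ext h3) (Subtype.ext h2)
  have := Nat.card_le_card_of_injective _ h
  rwa [Nat.card_prod] at this

lemma f_pos (N : ℕ) : 0 < f N := by
  unfold f
  have : Nonempty (OMs N) := ⟨⟨_, OM.id N⟩⟩
  exact Nat.card_pos

end Pool.Agent.Helper33.Meander
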