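import Pool.Agent.Helper33.Meander.Bij
import Pool.Agent.Helper33.Meander.Super
import Pool.Agent.Helper33.Meander.Ratio

/-!
# Growth of the meander numbers
-/

namespace Pool.Agent.Helper33.Meander

open Filter Topology

/-- Logarithms of the meander numbers. -/
noncomputable def L (n : ℕ) : ℝ := Real.log (f (2 * n + 1))

lemma fR_pos (N : ℕ) : (0 : ℝ) < f N := by exact_mod_cast f_pos N

lemma f_one : f 1 = 1 := by
  have h1 : f 1 ≤ 1 := by
    unfold f
    have : Subsingleton (OMs 1) := by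
      constructor
      intro a b
      apply Subtype.ext
      apply a.2.ext' b.2
      intro k hk
      have h1 := a.2.lt k hk
      have h2 := b.2.lt k hk
      omega
    exact Finite.card_le_one_iff_subsingleton.2 this
  have := f_pos 1
  omega

lemma L_super (a b : ℕ) : L a + L b ≤ L (a + b) := by
  unfold L
  rw [← Real.log_mul (fR_pos _).ne' (fR_pos _).ne']
  apply Real.log_le_log
  · exact mul_pos (fR_pos _) (fR_pos _)
  · exact_mod_cast f_super a b

lemma subadd : Subadditive (fun n => - L n) := by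
  intro a b
  have := L_super a b
  linarith

lemma L_le (n : ℕ) : L n ≤ (n + 1) * Real.log 16 := by
  unfold L
  have h1 : f (2 * n + 1) ≤ 16 ^ (n + 1) := by
    have := meanders_le (n + 1)
    rwa [meanders_eq_f (n + 1) (by omega), show 2 * (n + 1) - 1 = 2 * n + 1 by omega] at this
  have h2 : (f (2 * n + 1) : ℝ) ≤ (16 : ℝ) ^ (n + 1) := by exact_mod_cast h1
  calc Real.log (f (2 * n + 1)) ≤ Real.log ((16 : ℝ) ^ (n + 1)) := Real.log_le_log (fR_pos _) h2
    _ = (n + 1) * Real.log 16 := by rw [Real.log_pow]; push_cast; ring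

lemma bdd : BddBelow (Set.range fun n : ℕ => (fun n => - L n) n / n) := by
  refine ⟨-(2 * Real.log 16), ?_⟩
  rintro _ ⟨n, rfl⟩
  have hlog : 0 ≤ Real.log 16 := Real.log_nonneg (by norm_num)
  rcases Nat.eq_zero_or_pos n with h | h
  · subst h
    simp only [Nat.cast_zero, div_zero]
    linarith
  · have hn : (1 : ℝ) ≤ n := by exact_mod_cast h
    have h1 := L_le n
    simp only
    rw [le_div_iff₀ (by linarith)]
    nlinarith

/-- The logarithm of the growth rate. -/
noncomputable def ell : ℝ := - subadd.lim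

lemma tendsto_L : Tendsto (fun n : ℕ => L n / n) atTop (𝓝 ell) := by
  have h := (subadd.tendsto_lim bdd).neg
  refine h.congr fun n => ?_
  ring

lemma L_zero : L 0 = 0 := by
  unfold L
  rw [show 2 * 0 + 1 = 1 by norm_num, f_one]
  simp

lemma L_le_ell (n : ℕ) : L n ≤ n * ell := by
  rcases Nat.eq_zero_or_pos n with h | h
  · subst h
    rw [L_zero]
    simp
  · have h1 := subadd.lim_le_div bdd (n := n) (by omega)
    have hn : (0 : ℝ) < n := by exact_mod_cast h
    unfold ell
    rw [le_div_iff₀ hn] at h1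
    linarith

lemma L_nonneg (n : ℕ) : 0 ≤ L n := by
  unfold L
  apply Real.log_nonneg
  exact_mod_cast f_pos _

lemma ell_nonneg : 0 ≤ ell := by
  have h1 := L_le_ell 1
  have h2 := L_nonneg 1
  simp only [Nat.cast_one, one_mul] at h1
  linarith

/-- The growth rate `μ = R ^ 2`. -/
noncomputable def mu : ℝ := Real.exp ell

lemma mu_pos : 0 < mu := Real.exp_pos _

lemma f_le_mu (n : ℕ) : (f (2 * n + 1) : ℝ) ≤ mu ^ n := by
  have h := L_le_ell n
  have h1 : (f (2 * n + 1) : ℝ) = Real.exp (L n) := (Real.exp_log (fR_pos _)).symm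
  rw [h1, mu, ← Real.exp_nat_mul]
  exact Real.exp_le_exp.2 h

lemma tendsto_L_diff : Tendsto (fun n : ℕ => L (n + 1) - L n) atTop (𝓝 ell) := by
  apply ratio_limit tendsto_L
  intro n hn
  have h := main_ineq (n + 1) (by omega)
  rw [show 2 * (n + 1) - 1 = 2 * n + 1 by omega, show 2 * (n + 1 + 1) - 1 = 2 * (n + 1) + 1 by omega,
    show n + 1 - 1 = n by omega, show 2 * n - 1 = 2 * (n - 1) + 1 by omega] at h
  have h' : ((n : ℝ) + 1) * (f (2 * n + 1) : ℝ) ^ 2 ≤
      (f (2 * (n + 1) + 1) : ℝ) * (n * (f (2 * (n - 1) + 1) : ℝ) + f (2 * n + 1)) := by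
    exact_mod_cast h
  unfold L
  have p0 := fR_pos (2 * (n - 1) + 1)
  have p1 := fR_pos (2 * n + 1)
  have p2 := fR_pos (2 * (n + 1) + 1)
  rw [Real.exp_sub, Real.exp_sub, Real.exp_log p0, Real.exp_log p1, Real.exp_log p2]
  have e1 : ((n : ℝ) + 1) * ((f (2 * n + 1) : ℝ) / f (2 * (n + 1) + 1)) =
      (((n : ℝ) + 1) * (f (2 * n + 1) : ℝ) ^ 2) / (f (2 * (n + 1) + 1) * f (2 * n + 1)) := by
    field_simp
  have e2 : (n : ℝ) * ((f (2 * (n - 1) + 1) : ℝ) / f (2 * n + 1)) + 1 =
      ((f (2 * (n + 1) + 1) : ℝ) * (n * (f (2 * (n - 1) + 1) : ℝ) + f (2 * n + 1))) /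
        (f (2 * (n + 1) + 1) * f (2 * n + 1)) := by
    field_simp
  rw [e1, e2]
  exact div_le_div_of_nonneg_right h' (by positivity)

lemma meanders_succ (n : ℕ) : (meanders (n + 1) : ℝ) = Real.exp (L n) := by
  rw [meanders_eq_f (n + 1) (by omega), show 2 * (n + 1) - 1 = 2 * n + 1 by omega]
  exact (Real.exp_log (fR_pos _)).symm

/-- Ratio limit theorem. -/
theorem tendsto_ratio :
    Tendsto (fun n : ℕ => (meanders (n + 1) : ℝ) / meanders n) atTop (𝓝 mu) := by
  rw [← tendsto_add_atTop_iff_nat 1]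
  have h := (Real.continuous_exp.tendsto ell).comp tendsto_L_diff
  refine h.congr fun n => ?_
  rw [meanders_succ, meanders_succ]
  simp only [Function.comp]
  rw [Real.exp_sub]

/-- Root limit. -/
theorem tendsto_root :
    Tendsto (fun n : ℕ => (meanders n : ℝ) ^ ((1 : ℝ) / n)) atTop (𝓝 mu) := by
  rw [← tendsto_add_atTop_iff_nat 1]
  have h1 : Tendsto (fun n : ℕ => L n / n * ((n : ℝ) / (n + 1))) atTop (𝓝 (ell * 1)) :=
    tendsto_L.mul (tendsto_natCast_div_add_atTop (1 : ℝ))
  rw [mul_one] at h1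
  have h2 := (Real.continuous_exp.tendsto ell).comp h1
  refine h2.congr' ?_
  filter_upwards [eventually_ge_atTop 1] with n hn
  rw [meanders_succ, ← Real.exp_mul]
  simp only [Function.comp]
  congr 1
  have : (0 : ℝ) < n := by exact_mod_cast hn
  push_cast
  field_simp

end Pool.Agent.Helper33.Meander
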