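import Pool.Agent.Helper33.Meander.Tree
import Pool.Agent.Helper33.Meander.Growth

/-!
# Generating functions
-/

namespace Pool.Agent.Helper33.Meander

open scoped ENNReal

/-- Generating function of marked open meanders. -/
noncomputable def D (z : ℝ≥0∞) : ℝ≥0∞ := ∑' d : MO, z ^ d.1.1

/-- Generating function of doubly marked open meanders. -/
noncomputable def E (z : ℝ≥0∞) : ℝ≥0∞ := ∑' e : MO2, z ^ e.1.1

lemma glue_size (p : MO × MO × MO) :
    (glue p).1.1 = p.1.1.1 + (p.2.1.1.1 + (p.2.2.1.1 + 4)) := by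
  unfold glue
  simp only
  omega

lemma D_cube_le (z : ℝ≥0∞) : z ^ 4 * D z ^ 3 ≤ E z := by
  have h1 : ∑' p : MO × MO × MO, z ^ (glue p).1.1 ≤ E z :=
    ENNReal.tsum_comp_le_tsum_of_injective glue_injective (fun e : MO2 => z ^ e.1.1)
  refine le_trans (le_of_eq ?_) h1
  simp_rw [glue_size, pow_add]
  rw [ENNReal.tsum_prod']
  simp_rw [ENNReal.tsum_mul_left]
  rw [ENNReal.tsum_mul_right, ENNReal.tsum_prod']
  simp_rw [ENNReal.tsum_mul_left, ENNReal.tsum_mul_right]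
  unfold D
  ring

/-- Marked open meanders by size. -/
noncomputable def moEquiv : (Σ n : ℕ, OMs (2 * n + 1) × Fin (2 * n + 1)) ≃ MO :=
  Equiv.ofBijective (fun x => ⟨(2 * x.1 + 1, x.2.1.1, x.2.2.1),
    by simp only; omega, x.2.1.2, x.2.2.2⟩) (by
    constructor
    · rintro ⟨n, ⟨T, hT⟩, i⟩ ⟨n', ⟨T', hT'⟩, i'⟩ h
      have h1 := congrArg (fun d : MO => d.1.1) h
      have h2 := congrArg (fun d : MO => d.1.2.1) h
      have h3 := congrArg (fun d : MO => d.1.2.2) h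
      simp only at h1 h2 h3
      obtain rfl : n = n' := by omega
      subst h2
      obtain rfl : i = i' := Fin.ext h3
      rfl
    · rintro ⟨⟨N, T, i⟩, h1, h2, h3⟩
      simp only at h1 h2 h3
      obtain ⟨n, rfl⟩ : ∃ n, N = 2 * n + 1 := ⟨N / 2, by omega⟩
      exact ⟨⟨n, ⟨T, h2⟩, ⟨i, h3⟩⟩, rfl⟩)

/-- Doubly marked open meanders by size. -/
noncomputable def mo2Equiv :
    (Σ n : ℕ, OMs (2 * n + 1) × (Fin (2 * n + 1) × Fin (2 * n + 1))) ≃ MO2 :=
  Equiv.ofBijective (fun x => ⟨(2 * x.1 + 1, x.2.1.1, x.2.2.1.1, x.2.2.2.1),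
    by simp only; omega, x.2.1.2, x.2.2.1.2, x.2.2.2.2⟩) (by
    constructor
    · rintro ⟨n, ⟨T, hT⟩, i, j⟩ ⟨n', ⟨T', hT'⟩, i', j'⟩ h
      have h1 := congrArg (fun d : MO2 => d.1.1) h
      have h2 := congrArg (fun d : MO2 => d.1.2.1) h
      have h3 := congrArg (fun d : MO2 => d.1.2.2.1) h
      have h4 := congrArg (fun d : MO2 => d.1.2.2.2) h
      simp only at h1 h2 h3 h4
      obtain rfl : n = n' := by omega
      subst h2
      obtain rfl : i = i' := Fin.ext h3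
      obtain rfl : j = j' := Fin.ext h4
      rfl
    · rintro ⟨⟨N, T, i, j⟩, h1, h2, h3, h4⟩
      simp only at h1 h2 h3 h4
      obtain ⟨n, rfl⟩ : ∃ n, N = 2 * n + 1 := ⟨N / 2, by omega⟩
      exact ⟨⟨n, ⟨T, h2⟩, ⟨i, h3⟩, ⟨j, h4⟩⟩, rfl⟩)

lemma D_eq (z : ℝ≥0∞) :
    D z = ∑' n : ℕ, ((2 * n + 1 : ℕ) * f (2 * n + 1) : ℕ) * z ^ (2 * n + 1) := by
  unfold D
  rw [← moEquiv.tsum_eq, ENNReal.tsum_sigma']
  refine tsum_congr fun n => ?_
  have : ∀ b : OMs (2 * n + 1) × Fin (2 * n + 1),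
      z ^ (moEquiv ⟨n, b⟩).1.1 = z ^ (2 * n + 1) := fun b => rfl
  simp_rw [this]
  rw [tsum_fintype, Finset.sum_const, Finset.card_univ, nsmul_eq_mul, Fintype.card_prod,
    Fintype.card_fin, mul_comm (Fintype.card _)]
  unfold f
  rw [Nat.card_eq_fintype_card]

lemma E_eq (z : ℝ≥0∞) :
    E z = ∑' n : ℕ, ((2 * n + 1 : ℕ) ^ 2 * f (2 * n + 1) : ℕ) * z ^ (2 * n + 1) := by
  unfold E
  rw [← mo2Equiv.tsum_eq, ENNReal.tsum_sigma']
  refine tsum_congr fun n => ?_
  have : ∀ b : OMs (2 * n + 1) × (Fin (2 * n + 1) × Fin (2 * n + 1)),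
      z ^ (mo2Equiv ⟨n, b⟩).1.1 = z ^ (2 * n + 1) := fun b => rfl
  simp_rw [this]
  rw [tsum_fintype, Finset.sum_const, Finset.card_univ, nsmul_eq_mul, Fintype.card_prod,
    Fintype.card_prod, Fintype.card_fin, mul_comm (Fintype.card _), sq]
  unfold f
  rw [Nat.card_eq_fintype_card]

/-- The critical point. -/
noncomputable def rho : ℝ := Real.exp (-(ell / 2))

lemma rho_pos : 0 < rho := Real.exp_pos _

lemma rho_sq : rho ^ 2 * mu = 1 := by
  unfold rho mu
  rw [← Real.exp_nat_mul, ← Real.exp_add]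
  have : ((2 : ℕ) : ℝ) * -(ell / 2) + ell = 0 := by push_cast; ring
  rw [this, Real.exp_zero]

/-- Real generating function. -/
noncomputable def d (z : ℝ) : ℝ := ∑' n : ℕ, (2 * (n : ℝ) + 1) * f (2 * n + 1) * z ^ (2 * n + 1)

/-- Real generating function. -/
noncomputable def e (z : ℝ) : ℝ :=
  ∑' n : ℕ, (2 * (n : ℝ) + 1) ^ 2 * f (2 * n + 1) * z ^ (2 * n + 1)

lemma summable_e {z : ℝ} (h0 : 0 ≤ z) (h1 : z < rho) :
    Summable (fun n : ℕ => (2 * (n : ℝ) + 1) ^ 2 * f (2 * n + 1) * z ^ (2 * n + 1)) := by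
  have hmu := mu_pos
  have hr : mu * z ^ 2 < 1 := by
    have h2 : z ^ 2 < rho ^ 2 := by
      have := rho_pos
      nlinarith
    have h3 := rho_sq
    nlinarith
  have hr0 : 0 ≤ mu * z ^ 2 := by positivity
  have hn : ‖mu * z ^ 2‖ < 1 := by rwa [Real.norm_of_nonneg hr0]
  have s0 := summable_pow_mul_geometric_of_norm_lt_one 0 hn
  have s1 := summable_pow_mul_geometric_of_norm_lt_one 1 hn
  have s2 := summable_pow_mul_geometric_of_norm_lt_one 2 hn
  have s := (((s2.mul_left 4).add (s1.mul_left 4)).add s0).mul_left z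
  refine Summable.of_nonneg_of_le (fun n => by positivity) (fun n => ?_) s
  have h3 := f_le_mu n
  calc (2 * (n : ℝ) + 1) ^ 2 * f (2 * n + 1) * z ^ (2 * n + 1)
      ≤ (2 * (n : ℝ) + 1) ^ 2 * mu ^ n * z ^ (2 * n + 1) := by gcongr
    _ = _ := by
      rw [mul_pow, ← pow_mul, pow_add z (2 * n) 1]
      ring

lemma summable_d {z : ℝ} (h0 : 0 ≤ z) (h1 : z < rho) :
    Summable (fun n : ℕ => (2 * (n : ℝ) + 1) * f (2 * n + 1) * z ^ (2 * n + 1)) := by
  refine Summable.of_nonneg_of_le (fun n => by positivity) (fun n => ?_) (summable_e h0 h1)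
  have : (2 * (n : ℝ) + 1) ≤ (2 * (n : ℝ) + 1) ^ 2 := by
    have : (0 : ℝ) ≤ n := Nat.cast_nonneg n
    nlinarith
  gcongr

lemma D_ofReal {z : ℝ} (h0 : 0 ≤ z) (h1 : z < rho) : D (ENNReal.ofReal z) = ENNReal.ofReal (d z) := by
  rw [D_eq, d, ENNReal.ofReal_tsum_of_nonneg (fun n => by positivity) (summable_d h0 h1)]
  refine tsum_congr fun n => ?_
  rw [ENNReal.ofReal_mul (by positivity), ENNReal.ofReal_pow h0]
  congr 1
  rw [← ENNReal.ofReal_natCast]
  push_cast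
  rfl

lemma E_ofReal {z : ℝ} (h0 : 0 ≤ z) (h1 : z < rho) : E (ENNReal.ofReal z) = ENNReal.ofReal (e z) := by
  rw [E_eq, e, ENNReal.ofReal_tsum_of_nonneg (fun n => by positivity) (summable_e h0 h1)]
  refine tsum_congr fun n => ?_
  rw [ENNReal.ofReal_mul (by positivity), ENNReal.ofReal_pow h0]
  congr 1
  rw [← ENNReal.ofReal_natCast]
  push_cast
  rfl

lemma d_nonneg {z : ℝ} (h0 : 0 ≤ z) : 0 ≤ d z := tsum_nonneg fun n => by positivity

lemma e_nonneg {z : ℝ} (h0 : 0 ≤ z) : 0 ≤ e z := tsum_nonneg fun n => by positivity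

/-- The basic inequality `z ^ 4 * d ^ 3 ≤ z * d'`. -/
lemma d_cube_le {z : ℝ} (h0 : 0 ≤ z) (h1 : z < rho) : z ^ 4 * d z ^ 3 ≤ e z := by
  have h := D_cube_le (ENNReal.ofReal z)
  rw [D_ofReal h0 h1, E_ofReal h0 h1, ← ENNReal.ofReal_pow h0, ← ENNReal.ofReal_pow (d_nonneg h0),
    ← ENNReal.ofReal_mul (by positivity)] at h
  exact (ENNReal.ofReal_le_ofReal_iff (e_nonneg h0)).1 h

lemma d_step {z h : ℝ} (h0 : 0 < z) (hh : 0 ≤ h) (h1 : z + h < rho) :
    d z + h * z ^ 3 * d z ^ 3 ≤ d (z + h) := by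
  have hz1 : z < rho := by linarith
  have key : d z + h / z * e z ≤ d (z + h) := by
    unfold d e
    rw [← tsum_mul_left, ← (summable_d h0.le hz1).tsum_add ((summable_e h0.le hz1).mul_left _)]
    refine ((summable_d h0.le hz1).add ((summable_e h0.le hz1).mul_left _)).tsum_le_tsum
      (fun n => ?_) (summable_d (by positivity) h1)
    have hb : 1 + ((2 * n + 1 : ℕ) : ℝ) * (h / z) ≤ (1 + h / z) ^ (2 * n + 1) := by
      apply one_add_mul_le_pow
      have : 0 ≤ h / z := by positivity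
      linarith
    have hz : (z + h) ^ (2 * n + 1) = z ^ (2 * n + 1) * (1 + h / z) ^ (2 * n + 1) := by
      rw [← mul_pow]
      congr 1
      field_simp
    rw [hz]
    calc (2 * (n : ℝ) + 1) * f (2 * n + 1) * z ^ (2 * n + 1) +
          h / z * ((2 * (n : ℝ) + 1) ^ 2 * f (2 * n + 1) * z ^ (2 * n + 1))
        = (2 * (n : ℝ) + 1) * f (2 * n + 1) * (z ^ (2 * n + 1) *
          (1 + ((2 * n + 1 : ℕ) : ℝ) * (h / z))) := by push_cast; ring
      _ ≤ _ := by gcongr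
  refine le_trans ?_ key
  have h2 := d_cube_le h0.le hz1
  have h3 : h * z ^ 3 * d z ^ 3 = h / z * (z ^ 4 * d z ^ 3) := by
    field_simp
  rw [h3]
  gcongr

lemma d_pos {z : ℝ} (h0 : 0 < z) (h1 : z < rho) : 0 < d z := by
  unfold d
  refine (summable_d h0.le h1).tsum_pos (fun n => by positivity) 0 ?_
  have := fR_pos (2 * 0 + 1)
  positivity

lemma d_mono {z w : ℝ} (h0 : 0 < z) (h1 : z ≤ w) (h2 : w < rho) : d z ≤ d w := by
  have h := d_step h0 (h := w - z) (by linarith) (by linarith)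
  have h3 := d_pos h0 (by linarith)
  rw [show z + (w - z) = w by ring] at h
  have : 0 ≤ (w - z) * z ^ 3 * d z ^ 3 := by
    have : 0 ≤ w - z := by linarith
    positivity
  linarith

/-- The mean-field bound. -/
lemma d_sq_le {z : ℝ} (h0 : 0 < z) (h1 : z < rho) : 3 * (z ^ 3 * (rho - z) * d z ^ 2) ≤ 4 := by
  by_contra hcon
  push Not at hcon
  have hd := d_pos h0 h1
  set q : ℝ := 1 / (z ^ 3 * d z ^ 2) with hq
  have hqpos : 0 < q := by positivity
  have hq1 : q * (z ^ 3 * d z ^ 2) = 1 := by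
    rw [hq]
    field_simp
  have hend : z + 4 / 3 * q < rho := by
    have : 0 < z ^ 3 * d z ^ 2 := by positivity
    by_contra h
    push Not at h
    have h5 : (rho - z) * (z ^ 3 * d z ^ 2) ≤ 4 / 3 * q * (z ^ 3 * d z ^ 2) := by
      apply mul_le_mul_of_nonneg_right _ this.le
      linarith
    nlinarith
  set pt : ℕ → ℝ := fun j => z + 4 / 3 * q * (1 - (1 / 4) ^ j) with hpt
  have hz_le : ∀ j, z ≤ pt j := by
    intro j
    have : ((1 : ℝ) / 4) ^ j ≤ 1 := pow_le_one₀ (by norm_num) (by norm_num)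
    have : 0 ≤ 4 / 3 * q * (1 - (1 / 4) ^ j) := by
      apply mul_nonneg (by positivity)
      linarith
    simp only [hpt]
    linarith
  have hlt : ∀ j, pt j ≤ z + 4 / 3 * q := by
    intro j
    have : 0 ≤ ((1 : ℝ) / 4) ^ j := by positivity
    simp only [hpt]
    nlinarith
  have hstep : ∀ j, pt (j + 1) = pt j + q * (1 / 4) ^ j := by
    intro j
    simp only [hpt, pow_succ]
    ring
  have hind : ∀ j, 2 ^ j * d z ≤ d (pt j) := by
    intro j
    induction j with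
    | zero => simp [hpt]
    | succ j ih =>
      have hp : 0 < pt j := lt_of_lt_of_le h0 (hz_le j)
      have h2 := d_step hp (h := q * (1 / 4) ^ j) (by positivity) (by
        rw [← hstep]
        linarith [hlt (j + 1)])
      rw [hstep]
      refine le_trans ?_ h2
      have h3 : z ^ 3 ≤ (pt j) ^ 3 := by
        have := hz_le j
        gcongr
      have h4 : (2 ^ j * d z) ^ 3 ≤ d (pt j) ^ 3 := by gcongr
      have h5 : q * (1 / 4) ^ j * z ^ 3 * (2 ^ j * d z) ^ 3 ≤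
          q * (1 / 4) ^ j * (pt j) ^ 3 * d (pt j) ^ 3 := by gcongr
      have h6 : q * (1 / 4) ^ j * z ^ 3 * (2 ^ j * d z) ^ 3 = 2 ^ j * d z := by
        have : ((1 : ℝ) / 4) ^ j * (2 ^ j) ^ 2 = 1 := by
          rw [← pow_mul, mul_comm j 2, pow_mul, ← mul_pow]
          norm_num
        calc q * (1 / 4) ^ j * z ^ 3 * (2 ^ j * d z) ^ 3 =
            (q * (z ^ 3 * d z ^ 2)) * (((1 : ℝ) / 4) ^ j * (2 ^ j) ^ 2) * (2 ^ j * d z) := by ring
          _ = _ := by rw [hq1, this]; ring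
      rw [h6] at h5
      rw [pow_succ]
      linarith
  have hb : ∀ j : ℕ, 2 ^ j * d z ≤ d (z + 4 / 3 * q) := fun j =>
    (hind j).trans (d_mono (lt_of_lt_of_le h0 (hz_le j)) (hlt j) hend)
  obtain ⟨j, hj⟩ := pow_unbounded_of_one_lt (d (z + 4 / 3 * q) / d z) (one_lt_two (α := ℝ))
  have := hb j
  rw [div_lt_iff₀ hd] at hj
  linarith

end Pool.Agent.Helper33.Meander
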