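import Pool.Agent.Helper33.Meander.Defs

/-!
# Inflation of open meanders
-/

namespace Pool.Agent.Helper33.Meander

variable {m N i : ℕ} {X T : ℕ → ℕ}

lemma OM.ne_of_ne (hT : OM N T) {a b : ℕ} (h : a ≠ b) : T a ≠ T b := fun h' => h (hT.inj h')

/-- The five kinds of arcs of an inflation. -/
lemma arc_cases (hm : 1 ≤ m) (a : ℕ) :
    (a + 1 < i ∧ infl m i X T a = sh m (T i) (T a) ∧ infl m i X T (a + 1) = sh m (T i) (T (a + 1))) ∨
    (a + 1 = i ∧ infl m i X T a = sh m (T i) (T a) ∧ infl m i X T (a + 1) = T i + X 0) ∨
    (∃ j, j + 1 < m ∧ a = i + j ∧ infl m i X T a = T i + X j ∧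
      infl m i X T (a + 1) = T i + X (j + 1)) ∨
    (a = i + (m - 1) ∧ infl m i X T a = T i + X (m - 1) ∧
      infl m i X T (a + 1) = sh m (T i) (T (i + 1))) ∨
    (∃ c, i < c ∧ a = c + (m - 1) ∧ infl m i X T a = sh m (T i) (T c) ∧
      infl m i X T (a + 1) = sh m (T i) (T (c + 1))) := by
  rcases Nat.lt_trichotomy (a + 1) i with h | h | h
  · exact Or.inl ⟨h, infl_left (by omega), infl_left h⟩
  · refine Or.inr (Or.inl ⟨h, infl_left (by omega), ?_⟩)
    rw [h]
    have := infl_mid (m := m) (i := i) (X := X) (T := T) (k := 0) (by omega)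
    simpa using this
  · rcases Nat.lt_trichotomy a (i + (m - 1)) with h' | h' | h'
    · refine Or.inr (Or.inr (Or.inl ⟨a - i, by omega, by omega, ?_, ?_⟩))
      · have := infl_mid (m := m) (i := i) (X := X) (T := T) (k := a - i) (by omega)
        rwa [show i + (a - i) = a by omega] at this
      · have := infl_mid (m := m) (i := i) (X := X) (T := T) (k := a - i + 1) (by omega)
        rwa [show i + (a - i + 1) = a + 1 by omega] at this
    · refine Or.inr (Or.inr (Or.inr (Or.inl ⟨h', ?_, ?_⟩)))
      · rw [h']
        exact infl_mid (by omega)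
      · have := infl_right (m := m) (i := i) (X := X) (T := T) (k := i + 1) hm (by omega)
        rw [← this]
        congr 1
        omega
    · refine Or.inr (Or.inr (Or.inr (Or.inr ⟨a - (m - 1), by omega, by omega, ?_, ?_⟩)))
      · have := infl_right (m := m) (i := i) (X := X) (T := T) (k := a - (m - 1)) hm (by omega)
        rwa [show a - (m - 1) + (m - 1) = a by omega] at this
      · have := infl_right (m := m) (i := i) (X := X) (T := T) (k := a - (m - 1) + 1) hm
          (by omega)
        rwa [show a - (m - 1) + 1 + (m - 1) = a + 1 by omega] at this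

lemma idx_cases (hm : 1 ≤ m) (k : ℕ) :
    (k < i ∧ infl m i X T k = sh m (T i) (T k)) ∨
    (∃ j, j < m ∧ k = i + j ∧ infl m i X T k = T i + X j) ∨
    (∃ c, i < c ∧ k = c + (m - 1) ∧ infl m i X T k = sh m (T i) (T c)) := by
  rcases Nat.lt_or_ge k i with h | h
  · exact Or.inl ⟨h, infl_left h⟩
  · rcases Nat.lt_or_ge k (i + m) with h' | h'
    · refine Or.inr (Or.inl ⟨k - i, by omega, by omega, ?_⟩)
      have := infl_mid (m := m) (i := i) (X := X) (T := T) (k := k - i) (by omega)
      rwa [show i + (k - i) = k by omega] at this
    · refine Or.inr (Or.inr ⟨k - (m - 1), by omega, by omega, ?_⟩)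
      have := infl_right (m := m) (i := i) (X := X) (T := T) (k := k - (m - 1)) hm (by omega)
      rwa [show k - (m - 1) + (m - 1) = k by omega] at this

theorem OM.infl (hm : m % 2 = 1) (hN : N % 2 = 1) (hX : OM m X) (hT : OM N T) (hi : i < N) :
    OM (N + (m - 1)) (infl m i X T) := by
  have hm1 : 1 ≤ m := by omega
  have hv : T i < N := hT.lt i hi
  have hne : ∀ {a : ℕ}, a ≠ i → T a ≠ T i := fun h => hT.ne_of_ne h
  refine ⟨?_, ?_, ?_, ?_, ?_⟩
  · intro k hk
    rcases idx_cases (i := i) (X := X) (T := T) hm1 k with ⟨h, e⟩ | ⟨j, h, h', e⟩ | ⟨c, h, h', e⟩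
    · have h1 := hT.lt k (by omega)
      have h2 := sh_spec (m := m) (hne (show k ≠ i by omega))
      omega
    · have h1 := hX.lt j h
      omega
    · have h1 := hT.lt c (by omega)
      have h2 := sh_spec (m := m) (hne (show c ≠ i by omega))
      omega
  · intro k hk
    rcases idx_cases (i := i) (X := X) (T := T) hm1 k with ⟨h, e⟩ | ⟨j, h, h', e⟩ | ⟨c, h, h', e⟩
    · omega
    · omega
    · have h1 := hT.fix c (by omega)
      have h2 := sh_spec (m := m) (hne (show c ≠ i by omega))
      omega
  · intro a b hab
    rcases idx_cases (i := i) (X := X) (T := T) hm1 a with ⟨h, e⟩ | ⟨j, h, h', e⟩ | ⟨c, h, h', e⟩ <;>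
      rcases idx_cases (i := i) (X := X) (T := T) hm1 b with
        ⟨g, f⟩ | ⟨j', g, g', f⟩ | ⟨c', g, g', f⟩
    · have h1 := sh_spec (m := m) (hne (show a ≠ i by omega))
      have h2 := sh_spec (m := m) (hne (show b ≠ i by omega))
      exact hT.inj (by omega)
    · have h1 := sh_spec (m := m) (hne (show a ≠ i by omega))
      have h2 := hX.lt j' g
      omega
    · have h1 := sh_spec (m := m) (hne (show a ≠ i by omega))
      have h2 := sh_spec (m := m) (hne (show c' ≠ i by omega))
      have h3 : T a = T c' := by omega
      have := hT.inj h3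
      omega
    · have h1 := sh_spec (m := m) (hne (show b ≠ i by omega))
      have h2 := hX.lt j h
      omega
    · have h3 : X j = X j' := by omega
      have := hX.inj h3
      omega
    · have h1 := sh_spec (m := m) (hne (show c' ≠ i by omega))
      have h2 := hX.lt j h
      omega
    · have h1 := sh_spec (m := m) (hne (show c ≠ i by omega))
      have h2 := sh_spec (m := m) (hne (show b ≠ i by omega))
      have h3 : T c = T b := by omega
      have := hT.inj h3
      omega
    · have h1 := sh_spec (m := m) (hne (show c ≠ i by omega))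
      have h2 := hX.lt j' g
      omega
    · have h1 := sh_spec (m := m) (hne (show c ≠ i by omega))
      have h2 := sh_spec (m := m) (hne (show c' ≠ i by omega))
      have h3 : T c = T c' := by omega
      have := hT.inj h3
      omega
  · intro a b hab hb hp
    rcases arc_cases (i := i) (X := X) (T := T) hm1 a with
      ⟨h, e, e'⟩ | ⟨h, e, e'⟩ | ⟨j, h, h', e, e'⟩ | ⟨h, e, e'⟩ | ⟨c, h, h', e, e'⟩ <;>
    rcases arc_cases (i := i) (X := X) (T := T) hm1 b with
      ⟨g, f, f'⟩ | ⟨g, f, f'⟩ | ⟨k, g, g', f, f'⟩ | ⟨g, f, f'⟩ | ⟨d, g, g', f, f'⟩ <;>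
    rw [e, e', f, f']
    · -- A A
      have p1 := sh_spec (m := m) (hne (show a ≠ i by omega))
      have p2 := sh_spec (m := m) (hne (show a + 1 ≠ i by omega))
      have p3 := sh_spec (m := m) (hne (show b ≠ i by omega))
      have p4 := sh_spec (m := m) (hne (show b + 1 ≠ i by omega))
      have q := hT.arcs a b hab (by omega) hp
      simp only [Crs, Btw] at q ⊢
      omega
    · -- A B
      have p1 := sh_spec (m := m) (hne (show a ≠ i by omega))
      have p2 := sh_spec (m := m) (hne (show a + 1 ≠ i by omega))
      have p3 := sh_spec (m := m) (hne (show b ≠ i by omega))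
      have p4 := hX.lt 0 (by omega)
      have q := hT.arcs a b hab (by omega) hp
      rw [g] at q
      simp only [Crs, Btw] at q ⊢
      omega
    · -- A C
      have p1 := sh_spec (m := m) (hne (show a ≠ i by omega))
      have p2 := sh_spec (m := m) (hne (show a + 1 ≠ i by omega))
      have p3 := hX.lt k (by omega)
      have p4 := hX.lt (k + 1) (by omega)
      simp only [Crs, Btw]
      omega
    · -- A D
      have p1 := sh_spec (m := m) (hne (show a ≠ i by omega))
      have p2 := sh_spec (m := m) (hne (show a + 1 ≠ i by omega))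
      have p3 := sh_spec (m := m) (hne (show i + 1 ≠ i by omega))
      have p4 := hX.lt (m - 1) (by omega)
      have q := hT.arcs a i (by omega) (by omega) (by omega)
      simp only [Crs, Btw] at q ⊢
      omega
    · -- A E
      have p1 := sh_spec (m := m) (hne (show a ≠ i by omega))
      have p2 := sh_spec (m := m) (hne (show a + 1 ≠ i by omega))
      have p3 := sh_spec (m := m) (hne (show d ≠ i by omega))
      have p4 := sh_spec (m := m) (hne (show d + 1 ≠ i by omega))
      have q := hT.arcs a d (by omega) (by omega) (by omega)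
      simp only [Crs, Btw] at q ⊢
      omega
    · omega
    · omega
    · -- B C
      have p1 := sh_spec (m := m) (hne (show a ≠ i by omega))
      have p2 := hX.lt 0 (by omega)
      have p3 := hX.lt k (by omega)
      have p4 := hX.lt (k + 1) (by omega)
      have p5 := hX.ne_of_ne (show k ≠ 0 by omega)
      have p6 := hX.ne_of_ne (show k + 1 ≠ 0 by omega)
      have q := hX.root k (by omega) (by omega)
      simp only [Crs, Btw] at q ⊢
      omega
    · omega
    · -- B E
      have p1 := sh_spec (m := m) (hne (show a ≠ i by omega))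
      have p2 := hX.lt 0 (by omega)
      have p3 := sh_spec (m := m) (hne (show d ≠ i by omega))
      have p4 := sh_spec (m := m) (hne (show d + 1 ≠ i by omega))
      have q := hT.arcs a d (by omega) (by omega) (by omega)
      rw [h] at q
      simp only [Crs, Btw] at q ⊢
      omega
    · omega
    · omega
    · -- C C
      have q := hX.arcs j k (by omega) (by omega) (by omega)
      simp only [Crs, Btw] at q ⊢
      omega
    · -- C D
      have p1 := sh_spec (m := m) (hne (show i + 1 ≠ i by omega))
      have p2 := hX.lt j (by omega)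
      have p3 := hX.lt (j + 1) (by omega)
      have p4 := hX.lt (m - 1) (by omega)
      have q := hX.arcs j (m - 1) (by omega) (by omega) (by omega)
      have q' := hX.fix (m - 1 + 1) (by omega)
      rw [q'] at q
      simp only [Crs, Btw] at q ⊢
      omega
    · -- C E
      have p1 := hX.lt j (by omega)
      have p2 := hX.lt (j + 1) (by omega)
      have p3 := sh_spec (m := m) (hne (show d ≠ i by omega))
      have p4 := sh_spec (m := m) (hne (show d + 1 ≠ i by omega))
      simp only [Crs, Btw]
      omega
    · omega
    · omega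
    · omega
    · omega
    · -- D E
      have p1 := hX.lt (m - 1) (by omega)
      have p2 := sh_spec (m := m) (hne (show i + 1 ≠ i by omega))
      have p3 := sh_spec (m := m) (hne (show d ≠ i by omega))
      have p4 := sh_spec (m := m) (hne (show d + 1 ≠ i by omega))
      have q := hT.arcs i d (by omega) (by omega) (by omega)
      simp only [Crs, Btw] at q ⊢
      omega
    · omega
    · omega
    · omega
    · omega
    · -- E E
      have p1 := sh_spec (m := m) (hne (show c ≠ i by omega))
      have p2 := sh_spec (m := m) (hne (show c + 1 ≠ i by omega))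
      have p3 := sh_spec (m := m) (hne (show d ≠ i by omega))
      have p4 := sh_spec (m := m) (hne (show d + 1 ≠ i by omega))
      have q := hT.arcs c d (by omega) (by omega) (by omega)
      simp only [Crs, Btw] at q ⊢
      omega
  · intro a ha hp
    have h0 : (0 < i ∧ Meander.infl m i X T 0 = sh m (T i) (T 0)) ∨
        (i = 0 ∧ Meander.infl m i X T 0 = T 0 + X 0) := by
      rcases Nat.eq_zero_or_pos i with h | h
      · refine Or.inr ⟨h, ?_⟩
        have := infl_mid (m := m) (i := i) (X := X) (T := T) (k := 0) (by omega)
        rw [h] at this ⊢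
        simpa using this
      · exact Or.inl ⟨h, infl_left h⟩
    rcases h0 with ⟨hi0, r⟩ | ⟨hi0, r⟩ <;>
    rcases arc_cases (i := i) (X := X) (T := T) hm1 a with
      ⟨h, e, e'⟩ | ⟨h, e, e'⟩ | ⟨j, h, h', e, e'⟩ | ⟨h, e, e'⟩ | ⟨c, h, h', e, e'⟩ <;>
    rw [e, e', r]
    · have p0 := sh_spec (m := m) (hne (show 0 ≠ i by omega))
      have p1 := sh_spec (m := m) (hne (show a ≠ i by omega))
      have p2 := sh_spec (m := m) (hne (show a + 1 ≠ i by omega))
      have q := hT.root a (by omega) hp
      simp only [Btw] at q ⊢
      omega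
    · have p0 := sh_spec (m := m) (hne (show 0 ≠ i by omega))
      have p1 := sh_spec (m := m) (hne (show a ≠ i by omega))
      have p2 := hX.lt 0 (by omega)
      have q := hT.root a (by omega) hp
      rw [h] at q
      simp only [Btw] at q ⊢
      omega
    · have p0 := sh_spec (m := m) (hne (show 0 ≠ i by omega))
      have p1 := hX.lt j (by omega)
      have p2 := hX.lt (j + 1) (by omega)
      simp only [Btw]
      omega
    · have p0 := sh_spec (m := m) (hne (show 0 ≠ i by omega))
      have p1 := hX.lt (m - 1) (by omega)
      have p2 := sh_spec (m := m) (hne (show i + 1 ≠ i by omega))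
      have q := hT.root i (by omega) (by omega)
      simp only [Btw] at q ⊢
      omega
    · have p0 := sh_spec (m := m) (hne (show 0 ≠ i by omega))
      have p1 := sh_spec (m := m) (hne (show c ≠ i by omega))
      have p2 := sh_spec (m := m) (hne (show c + 1 ≠ i by omega))
      have q := hT.root c (by omega) (by omega)
      simp only [Btw] at q ⊢
      omega
    · omega
    · omega
    · have q := hX.root j (by omega) (by omega)
      simp only [Btw] at q ⊢
      subst hi0
      omega
    · omega
    · subst hi0
      have p0 := hX.lt 0 (by omega)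
      have p1 := sh_spec (m := m) (hne (show c ≠ 0 by omega))
      have p2 := sh_spec (m := m) (hne (show c + 1 ≠ 0 by omega))
      have q := hT.root c (by omega) (by omega)
      simp only [Btw] at q ⊢
      omega

end Pool.Agent.Helper33.Meander
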