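import Pool.Agent.Helper33.Meander.Infl

/-!
# Kinks: insertion and removal
-/

namespace Pool.Agent.Helper33.Meander

variable {N k : ℕ} {R T : ℕ → ℕ}

/-- The identity is an open meander. -/
theorem OM.id (N : ℕ) : OM N (fun k => k) := by
  refine ⟨fun k hk => hk, fun k _ => rfl, fun a b h => h, ?_, ?_⟩
  · intro a b hab _ _
    simp only [Crs, Btw]
    omega
  · intro a ha _
    simp only [Btw]
    omega

/-- Close the gap above `v`. -/
def dn (v w : ℕ) : ℕ := if w ≤ v then w else w - 2

/-- Remove the kink at index `k`. -/
def del (k : ℕ) (R : ℕ → ℕ) (j : ℕ) : ℕ := if j ≤ k then dn (R k) (R j) else dn (R k) (R (j + 2))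

lemma del_le {j : ℕ} (h : j ≤ k) : del k R j = dn (R k) (R j) := by simp [del, h]

lemma del_gt {j : ℕ} (h : k < j) : del k R j = dn (R k) (R (j + 2)) := by
  simp [del, not_le.2 h]

lemma dn_spec {v w : ℕ} (h1 : w ≠ v + 1) (h2 : w ≠ v + 2) :
    (w ≤ v ∧ dn v w = w) ∨ (v + 2 < w ∧ dn v w = w - 2) := by
  unfold dn
  split_ifs <;> omega

/-- `k` is (the first index of) a kink of `R`. -/
def IsKink (N : ℕ) (R : ℕ → ℕ) (k : ℕ) : Prop :=
  k % 2 = 0 ∧ k + 2 < N ∧ R (k + 1) = R k + 1 ∧ R (k + 2) = R k + 2

instance (N : ℕ) (R : ℕ → ℕ) (k : ℕ) : Decidable (IsKink N R k) := by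
  unfold IsKink; infer_instance

theorem OM.del (hR : OM (N + 2) R) (hk : IsKink (N + 2) R k) : OM N (del k R) := by
  obtain ⟨hk0, hk1, hk2, hk3⟩ := hk
  have hv : R (k + 2) < N + 2 := hR.lt (k + 2) (by omega)
  have n1 : ∀ {a : ℕ}, a ≠ k + 1 → R a ≠ R k + 1 := fun h h' => h (hR.inj (by omega))
  have n2 : ∀ {a : ℕ}, a ≠ k + 2 → R a ≠ R k + 2 := fun h h' => h (hR.inj (by omega))
  have n0 : ∀ {a : ℕ}, a ≠ k → R a ≠ R k := fun h h' => h (hR.inj h')
  have sp : ∀ {a : ℕ}, a ≠ k + 1 → a ≠ k + 2 →
      (R a ≤ R k ∧ dn (R k) (R a) = R a) ∨ (R k + 2 < R a ∧ dn (R k) (R a) = R a - 2) :=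
    fun h h' => dn_spec (n1 h) (n2 h')
  refine ⟨?_, ?_, ?_, ?_, ?_⟩
  · intro j hj
    rcases Nat.lt_or_ge k j with h | h
    · rw [del_gt h]
      have h1 := hR.lt (j + 2) (by omega)
      have h2 := sp (a := j + 2) (by omega) (by omega)
      omega
    · rw [del_le h]
      have h1 := hR.lt j (by omega)
      have h2 := sp (a := j) (by omega) (by omega)
      omega
  · intro j hj
    rw [del_gt (by omega)]
    have h1 := hR.fix (j + 2) (by omega)
    have h2 := sp (a := j + 2) (by omega) (by omega)
    omega
  · intro a b hab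
    rcases Nat.lt_or_ge k a with h | h <;> rcases Nat.lt_or_ge k b with h' | h'
    · rw [del_gt h, del_gt h'] at hab
      have h1 := sp (a := a + 2) (by omega) (by omega)
      have h2 := sp (a := b + 2) (by omega) (by omega)
      have h3 : R (a + 2) = R (b + 2) := by omega
      have := hR.inj h3
      omega
    · rw [del_gt h, del_le h'] at hab
      have h1 := sp (a := a + 2) (by omega) (by omega)
      have h2 := sp (a := b) (by omega) (by omega)
      have h3 : R (a + 2) = R b ∨ (R (a + 2) - 2 = R b) := by omega
      have h4 := n0 (a := a + 2) (by omega)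
      have h5 : R (a + 2) = R b := by omega
      have := hR.inj h5
      omega
    · rw [del_le h, del_gt h'] at hab
      have h1 := sp (a := a) (by omega) (by omega)
      have h2 := sp (a := b + 2) (by omega) (by omega)
      have h4 := n0 (a := b + 2) (by omega)
      have h5 : R a = R (b + 2) := by omega
      have := hR.inj h5
      omega
    · rw [del_le h, del_le h'] at hab
      have h1 := sp (a := a) (by omega) (by omega)
      have h2 := sp (a := b) (by omega) (by omega)
      have h3 : R a = R b := by omega
      exact hR.inj h3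
  · intro a b hab hb hp
    rcases Nat.lt_trichotomy a k with h | h | h <;> rcases Nat.lt_trichotomy b k with h' | h' | h'
    · rw [del_le (by omega), del_le (by omega), del_le (by omega), del_le (by omega)]
      have p1 := sp (a := a) (by omega) (by omega)
      have p2 := sp (a := a + 1) (by omega) (by omega)
      have p3 := sp (a := b) (by omega) (by omega)
      have p4 := sp (a := b + 1) (by omega) (by omega)
      have q := hR.arcs a b hab (by omega) hp
      simp only [Crs, Btw] at q ⊢
      omega
    · rw [del_le (by omega), del_le (by omega), del_le (by omega), del_gt (by omega)]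
      have p1 := sp (a := a) (by omega) (by omega)
      have p2 := sp (a := a + 1) (by omega) (by omega)
      have p3 := sp (a := b) (by omega) (by omega)
      have p4 := sp (a := b + 1 + 2) (by omega) (by omega)
      have p5 := n0 (a := a) (by omega)
      have p6 := n0 (a := a + 1) (by omega)
      have q := hR.arcs a (b + 2) (by omega) (by omega) (by omega)
      subst h'
      rw [hk3, show b + 2 + 1 = b + 1 + 2 by omega] at q
      simp only [Crs, Btw] at q ⊢
      omega
    · rw [del_le (by omega), del_le (by omega), del_gt (by omega), del_gt (by omega)]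
      have p1 := sp (a := a) (by omega) (by omega)
      have p2 := sp (a := a + 1) (by omega) (by omega)
      have p3 := sp (a := b + 2) (by omega) (by omega)
      have p4 := sp (a := b + 1 + 2) (by omega) (by omega)
      have q := hR.arcs a (b + 2) (by omega) (by omega) (by omega)
      rw [show b + 2 + 1 = b + 1 + 2 by omega] at q
      simp only [Crs, Btw] at q ⊢
      omega
    · omega
    · omega
    · rw [del_le (by omega), del_gt (by omega), del_gt (by omega), del_gt (by omega)]
      have p1 := sp (a := a) (by omega) (by omega)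
      have p2 := sp (a := a + 1 + 2) (by omega) (by omega)
      have p3 := sp (a := b + 2) (by omega) (by omega)
      have p4 := sp (a := b + 1 + 2) (by omega) (by omega)
      have p5 := n0 (a := b + 2) (by omega)
      have p6 := n0 (a := b + 1 + 2) (by omega)
      have q := hR.arcs (a + 2) (b + 2) (by omega) (by omega) (by omega)
      subst h
      rw [hk3, show b + 2 + 1 = b + 1 + 2 by omega, show a + 2 + 1 = a + 1 + 2 by omega] at q
      simp only [Crs, Btw] at q ⊢
      omega
    · omega
    · omega
    · rw [del_gt (by omega), del_gt (by omega), del_gt (by omega), del_gt (by omega)]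
      have p1 := sp (a := a + 2) (by omega) (by omega)
      have p2 := sp (a := a + 1 + 2) (by omega) (by omega)
      have p3 := sp (a := b + 2) (by omega) (by omega)
      have p4 := sp (a := b + 1 + 2) (by omega) (by omega)
      have q := hR.arcs (a + 2) (b + 2) (by omega) (by omega) (by omega)
      rw [show b + 2 + 1 = b + 1 + 2 by omega, show a + 2 + 1 = a + 1 + 2 by omega] at q
      simp only [Crs, Btw] at q ⊢
      omega
  · intro a ha hp
    rw [del_le (show 0 ≤ k by omega)]
    have p0 := sp (a := 0) (by omega) (by omega)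
    rcases Nat.lt_or_ge a k with h | h
    · rw [del_le (by omega), del_le (by omega)]
      have p1 := sp (a := a) (by omega) (by omega)
      have p2 := sp (a := a + 1) (by omega) (by omega)
      have q := hR.root a (by omega) hp
      simp only [Btw] at q ⊢
      omega
    · rw [del_gt (by omega), del_gt (by omega)]
      have p1 := sp (a := a + 2) (by omega) (by omega)
      have p2 := sp (a := a + 1 + 2) (by omega) (by omega)
      have q := hR.root (a + 2) (by omega) (by omega)
      rw [show a + 2 + 1 = a + 1 + 2 by omega] at q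
      simp only [Btw] at q ⊢
      omega

/-- Kink insertion. -/
def ins (k : ℕ) (T : ℕ → ℕ) : ℕ → ℕ := infl 3 k (fun j => j) T

theorem OM.ins (hN : N % 2 = 1) (hT : OM N T) (hk : k < N) : OM (N + 2) (ins k T) :=
  OM.infl (by norm_num) hN (OM.id 3) hT hk

lemma ins_lt {j : ℕ} (h : j < k) : ins k T j = sh 3 (T k) (T j) := infl_left h

lemma ins_mid {j : ℕ} (h : j < 3) : ins k T (k + j) = T k + j := infl_mid h

lemma ins_gt {j : ℕ} (h : k < j) : ins k T (j + 2) = sh 3 (T k) (T j) := by
  have := infl_right (m := 3) (i := k) (X := fun j => j) (T := T) (k := j) (by norm_num) h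
  exact this

lemma isKink_ins (hk : k < N) (hk0 : k % 2 = 0) : IsKink (N + 2) (ins k T) k := by
  have h0 := ins_mid (k := k) (T := T) (j := 0) (by norm_num)
  have h1 := ins_mid (k := k) (T := T) (j := 1) (by norm_num)
  have h2 := ins_mid (k := k) (T := T) (j := 2) (by norm_num)
  simp only [add_zero] at h0
  exact ⟨hk0, by omega, by omega, by omega⟩

theorem del_ins (hT : OM N T) : del k (ins k T) = T := by
  have h0 := ins_mid (k := k) (T := T) (j := 0) (by norm_num)
  simp only [add_zero] at h0
  funext j
  rcases Nat.lt_trichotomy j k with h | h | h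
  · rw [del_le (by omega), h0, ins_lt h]
    have := sh_spec (m := 3) (hT.ne_of_ne (show j ≠ k by omega))
    unfold dn
    split_ifs <;> omega
  · subst h
    rw [del_le (by omega), h0]
    simp [dn]
  · rw [del_gt (by omega), h0, ins_gt h]
    have := sh_spec (m := 3) (hT.ne_of_ne (show j ≠ k by omega))
    unfold dn
    split_ifs <;> omega

theorem ins_del (hR : OM N R) (hk : IsKink N R k) : ins k (del k R) = R := by
  obtain ⟨hk0, hk1, hk2, hk3⟩ := hk
  have n1 : ∀ {a : ℕ}, a ≠ k + 1 → R a ≠ R k + 1 := fun h h' => h (hR.inj (by omega))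
  have n2 : ∀ {a : ℕ}, a ≠ k + 2 → R a ≠ R k + 2 := fun h h' => h (hR.inj (by omega))
  have n0 : ∀ {a : ℕ}, a ≠ k → R a ≠ R k := fun h h' => h (hR.inj h')
  have hd : del k R k = R k := by rw [del_le le_rfl]; simp [dn]
  funext j
  rcases Nat.lt_or_ge j k with h | h
  · rw [ins_lt h, hd, del_le (by omega)]
    have p1 := n1 (a := j) (by omega)
    have p2 := n2 (a := j) (by omega)
    have p0 := n0 (a := j) (by omega)
    unfold dn sh
    split_ifs <;> omega
  · rcases Nat.lt_or_ge j (k + 3) with h' | h'
    · obtain ⟨c, rfl⟩ := Nat.exists_eq_add_of_le h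
      rw [ins_mid (by omega), hd]
      have hc : c = 0 ∨ c = 1 ∨ c = 2 := by omega
      rcases hc with rfl | rfl | rfl
      · simp
      · exact hk2.symm
      · exact hk3.symm
    · obtain ⟨c, rfl⟩ : ∃ c, j = c + 2 := ⟨j - 2, by omega⟩
      rw [ins_gt (by omega), hd, del_gt (by omega)]
      have p1 := n1 (a := c + 2) (by omega)
      have p2 := n2 (a := c + 2) (by omega)
      have p0 := n0 (a := c + 2) (by omega)
      unfold dn sh
      split_ifs <;> omega

end Pool.Agent.Helper33.Meander
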