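import Mathlib

/-!
# Meanders as pairs of non-crossing perfect matchings
-/

namespace Pool.Agent.Helper33.Meander

/-- `u` is the partner function of a non-crossing perfect matching of `m` points on a line:
a fixed point free involution such that no two of the arcs `{x, u x}` cross. -/
structure NCMatching {m : ℕ} (u : Fin m → Fin m) : Prop where
  invol : ∀ x, u (u x) = x
  ne : ∀ x, u x ≠ x
  nc : ∀ a b, a < b → b < u a → u b < u a

/-- The union of the two perfect matchings `u` and `l` is connected, i.e. a single cycle. -/
def SingleCycle {m : ℕ} (u l : Fin m → Fin m) : Prop :=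
  ∀ x y, Relation.ReflTransGen (fun a b => b = u a ∨ b = l a) x y

/-- The number `M_n` of meanders of order `n`: ordered pairs of non-crossing perfect matchings of
`2 n` points (the arches above and below the line) whose union is a single cycle. -/
noncomputable def meanders (n : ℕ) : ℕ :=
  Nat.card {p : (Fin (2 * n) → Fin (2 * n)) × (Fin (2 * n) → Fin (2 * n)) //
    NCMatching p.1 ∧ NCMatching p.2 ∧ SingleCycle p.1 p.2}

/-- A non-crossing perfect matching is determined by its opening points. -/
lemma NCMatching.eq_of_open {m : ℕ} {u v : Fin m → Fin m} (hu : NCMatching u)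
    (hv : NCMatching v) (h : ∀ x, x < u x ↔ x < v x) : u = v := by
  have key : ∀ d : ℕ, ∀ (u v : Fin m → Fin m), NCMatching u → NCMatching v →
      (∀ x, x < u x ↔ x < v x) → ∀ x, x < u x → ((u x : ℕ) - x ≤ d) → u x ≤ v x → u x = v x := by
    intro d
    induction d using Nat.strong_induction_on with
    | _ d ih =>
      intro u v hu hv h x hx hd hle
      by_contra hne
      have hlt : u x < v x := lt_of_le_of_ne hle hne
      -- z = partner of u x in v
      set y := u x with hy
      have hcl : v y < y := by
        have h1 : ¬ y < v y := by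
          rw [← h y, hy, hu.invol]
          exact not_lt.2 (le_of_lt hx)
        exact lt_of_le_of_ne (not_lt.1 h1) (hv.ne y)
      have hz1 : x < v y := by
        by_contra hc
        rcases lt_or_eq_of_le (not_lt.1 hc) with hc | hc
        · -- v y < x < y = v (v y)
          have h2 := hv.nc (v y) x hc (by rw [hv.invol]; exact hx)
          rw [hv.invol] at h2
          exact absurd hlt (not_lt.2 (le_of_lt h2))
        · have : v x = y := by rw [← hc, hv.invol]
          exact absurd this (ne_of_gt hlt)
      set z := v y with hz
      have hzo : z < v z := by rw [hz, hv.invol]; exact hcl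
      have hzo' : z < u z := (h z).2 hzo
      have h3 : u z < y := hu.nc x z hz1 hcl
      have h4 : v z = y := by rw [hz, hv.invol]
      have h5 := ih ((u z : ℕ) - z) (by
        have a1 : (z : ℕ) < u z := hzo'
        have a2 : (u z : ℕ) < y := h3
        have a3 : (x : ℕ) < z := hz1
        have a4 : (x : ℕ) < y := hx
        omega) u v hu hv h z hzo' le_rfl (by rw [h4]; exact le_of_lt h3)
      rw [h4] at h5
      exact absurd h5 (ne_of_lt h3)
  have key2 : ∀ x, x < u x → u x = v x := by
    intro x hx
    rcases le_total (u x) (v x) with h1 | h1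
    · exact key _ u v hu hv h x hx le_rfl h1
    · exact (key _ v u hv hu (fun x => (h x).symm) x ((h x).1 hx) le_rfl h1).symm
  funext x
  rcases lt_or_ge x (u x) with hx | hx
  · exact key2 x hx
  · have hx' : u x < x := lt_of_le_of_ne hx (hu.ne x)
    have h1 := key2 (u x) (by rw [hu.invol]; exact hx')
    rw [hu.invol] at h1
    -- x = v (u x)
    calc u x = v (v (u x)) := (hv.invol _).symm
      _ = v x := by rw [← h1]

lemma card_NC_le (m : ℕ) : Nat.card {u : Fin m → Fin m // NCMatching u} ≤ 2 ^ m := by
  classical
  have h : Function.Injective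
      (fun u : {u : Fin m → Fin m // NCMatching u} => (fun x => decide (x < u.1 x) : Fin m → Bool)) := by
    intro u v huv
    apply Subtype.ext
    apply u.2.eq_of_open v.2
    intro x
    have := congrFun huv x
    simpa using this
  have := Nat.card_le_card_of_injective _ h
  simpa using this

theorem meanders_le (n : ℕ) : meanders n ≤ 16 ^ n := by
  have h : Function.Injective
      (fun p : {p : (Fin (2 * n) → Fin (2 * n)) × (Fin (2 * n) → Fin (2 * n)) //
        NCMatching p.1 ∧ NCMatching p.2 ∧ SingleCycle p.1 p.2} =>
      ((⟨p.1.1, p.2.1⟩, ⟨p.1.2, p.2.2.1⟩) :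
        {u : Fin (2 * n) → Fin (2 * n) // NCMatching u} ×
          {u : Fin (2 * n) → Fin (2 * n) // NCMatching u})) := by
    intro p q hpq
    simp only [Prod.mk.injEq, Subtype.mk.injEq] at hpq
    exact Subtype.ext (Prod.ext hpq.1 hpq.2)
  have h1 := Nat.card_le_card_of_injective _ h
  rw [Nat.card_prod] at h1
  calc meanders n ≤ _ := h1
    _ ≤ 2 ^ (2 * n) * 2 ^ (2 * n) := Nat.mul_le_mul (card_NC_le _) (card_NC_le _)
    _ = 16 ^ n := by
      rw [← pow_add, show (16 : ℕ) = 2 ^ 4 by norm_num, ← pow_mul]
      congr 1
      ring

end Pool.Agent.Helper33.Meander
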