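import Pool.Agent.Helper33.Meander.GF

/-!
# The tail bound
-/

namespace Pool.Agent.Helper33.Meander

open Filter Topology

/-- Partial sums at the critical point. -/
lemma partial_le {K : ℕ} (hK : 1 ≤ K) :
    ∑ n ∈ Finset.range K, (2 * (n : ℝ) + 1) * f (2 * n + 1) * rho ^ (2 * n + 1) ≤
      8 * mu * Real.sqrt K := by
  have hrho := rho_pos
  have hmu := mu_pos
  have hK' : (1 : ℝ) ≤ K := by exact_mod_cast hK
  set z : ℝ := rho * (1 - 1 / (4 * K)) with hz
  have hK4 : 1 / (4 * (K : ℝ)) ≤ 1 / 4 := by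
    apply one_div_le_one_div_of_le (by norm_num)
    linarith
  have hK4' : 0 < 1 / (4 * (K : ℝ)) := by positivity
  have hz34 : 3 / 4 * rho ≤ z := by
    rw [hz]
    nlinarith
  have hz0 : 0 < z := by linarith
  have hz1 : z < rho := by
    rw [hz]
    nlinarith
  have h1 : ∑ n ∈ Finset.range K, (2 * (n : ℝ) + 1) * f (2 * n + 1) * rho ^ (2 * n + 1) ≤
      2 * ∑ n ∈ Finset.range K, (2 * (n : ℝ) + 1) * f (2 * n + 1) * z ^ (2 * n + 1) := by
    rw [Finset.mul_sum]
    apply Finset.sum_le_sum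
    intro n hn
    have hnK : n + 1 ≤ K := by
      have := Finset.mem_range.1 hn
      omega
    have hnK' : (n : ℝ) + 1 ≤ K := by exact_mod_cast hnK
    have hb : 1 + ((2 * n + 1 : ℕ) : ℝ) * (-(1 / (4 * K))) ≤ (1 + (-(1 / (4 * K)))) ^ (2 * n + 1) := by
      apply one_add_mul_le_pow
      linarith
    have hc : (1 : ℝ) / 2 ≤ 1 + ((2 * n + 1 : ℕ) : ℝ) * (-(1 / (4 * K))) := by
      have : ((2 * n + 1 : ℕ) : ℝ) * (1 / (4 * K)) ≤ 1 / 2 := by
        rw [mul_one_div, div_le_iff₀ (by positivity)]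
        push_cast
        linarith
      linarith
    have hd : z ^ (2 * n + 1) = rho ^ (2 * n + 1) * (1 + (-(1 / (4 * (K : ℝ))))) ^ (2 * n + 1) := by
      rw [hz, mul_pow]
      ring
    have h2 : rho ^ (2 * n + 1) ≤ 2 * z ^ (2 * n + 1) := by
      rw [hd]
      have : 0 < rho ^ (2 * n + 1) := by positivity
      nlinarith
    calc (2 * (n : ℝ) + 1) * f (2 * n + 1) * rho ^ (2 * n + 1)
        ≤ (2 * (n : ℝ) + 1) * f (2 * n + 1) * (2 * z ^ (2 * n + 1)) := by gcongr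
      _ = _ := by ring
  have h2 : ∑ n ∈ Finset.range K, (2 * (n : ℝ) + 1) * f (2 * n + 1) * z ^ (2 * n + 1) ≤ d z :=
    (summable_d hz0.le hz1).sum_le_tsum _ (fun n _ => by positivity)
  have h3 := d_sq_le hz0 hz1
  have h4 : d z ≤ 32 / 9 * mu * Real.sqrt K := by
    apply le_of_sq_le_sq _ (by positivity)
    rw [mul_pow, mul_pow, Real.sq_sqrt (by positivity)]
    have hr : rho - z = rho / (4 * K) := by
      rw [hz]
      ring
    rw [hr] at h3
    have h5 : (3 / 4 * rho) ^ 3 * (rho / (4 * K)) * d z ^ 2 ≤ z ^ 3 * (rho / (4 * K)) * d z ^ 2 := by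
      gcongr
    have h6 : 3 * ((3 / 4 * rho) ^ 3 * (rho / (4 * K)) * d z ^ 2) ≤ 4 := by linarith
    have h7 : rho ^ 4 * mu ^ 2 = 1 := by
      have := rho_sq
      calc rho ^ 4 * mu ^ 2 = (rho ^ 2 * mu) ^ 2 := by ring
        _ = 1 := by rw [this]; norm_num
    have h8 : 3 * ((3 / 4 * rho) ^ 3 * (rho / (4 * K)) * d z ^ 2) =
        81 / 256 * (rho ^ 4 * d z ^ 2) / K := by
      field_simp
      ring
    rw [h8, div_le_iff₀ (by positivity)] at h6
    calc d z ^ 2 = (rho ^ 4 * mu ^ 2) * d z ^ 2 := by rw [h7, one_mul]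
      _ = mu ^ 2 * (rho ^ 4 * d z ^ 2) := by ring
      _ ≤ mu ^ 2 * (1024 / 81 * K) := by
        apply mul_le_mul_of_nonneg_left _ (by positivity)
        linarith
      _ = _ := by ring
  have h5 : 0 ≤ mu * Real.sqrt K := by positivity
  linarith

/-- A dyadic block. -/
lemma block_le {m K : ℕ} (hm : 1 ≤ m) (hK : K ≤ 2 * m) :
    ∑ n ∈ Finset.Ico m K, (f (2 * n + 1) : ℝ) * rho ^ (2 * n + 1) ≤
      8 * mu * (Real.sqrt 2 / 2) / Real.sqrt m := by
  have hrho := rho_pos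
  have hmu := mu_pos
  have hm' : (1 : ℝ) ≤ m := by exact_mod_cast hm
  have h1 := partial_le (K := 2 * m) (by omega)
  have h2 : (2 * (m : ℝ)) * ∑ n ∈ Finset.Ico m K, (f (2 * n + 1) : ℝ) * rho ^ (2 * n + 1) ≤
      ∑ n ∈ Finset.range (2 * m), (2 * (n : ℝ) + 1) * f (2 * n + 1) * rho ^ (2 * n + 1) := by
    rw [Finset.mul_sum]
    refine le_trans (Finset.sum_le_sum (g := fun n : ℕ =>
      (2 * (n : ℝ) + 1) * f (2 * n + 1) * rho ^ (2 * n + 1)) ?_)
      (Finset.sum_le_sum_of_subset_of_nonneg ?_ ?_)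
    · intro n hn
      have hn' : (m : ℝ) ≤ n := by exact_mod_cast (Finset.mem_Ico.1 hn).1
      rw [mul_assoc (2 * (n : ℝ) + 1)]
      apply mul_le_mul_of_nonneg_right _ (by positivity)
      linarith
    · intro n hn
      have := Finset.mem_Ico.1 hn
      exact Finset.mem_range.2 (by omega)
    · intro n _ _
      positivity
  have h3 : Real.sqrt ((2 * m : ℕ) : ℝ) = Real.sqrt 2 * Real.sqrt m := by
    push_cast
    exact Real.sqrt_mul (by norm_num) _
  rw [h3] at h1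
  have h4 : Real.sqrt m * Real.sqrt m = m := Real.mul_self_sqrt (by positivity)
  have h5 : 0 < Real.sqrt m := Real.sqrt_pos.2 (by positivity)
  rw [le_div_iff₀ h5]
  have h6 : (2 * (m : ℝ)) * ∑ n ∈ Finset.Ico m K, (f (2 * n + 1) : ℝ) * rho ^ (2 * n + 1) ≤
      8 * mu * (Real.sqrt 2 * Real.sqrt m) := h2.trans h1
  have h7 : 2 * Real.sqrt m * ((∑ n ∈ Finset.Ico m K, (f (2 * n + 1) : ℝ) * rho ^ (2 * n + 1)) *
      Real.sqrt m) ≤ 2 * Real.sqrt m * (8 * mu * (Real.sqrt 2 / 2)) := by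
    calc 2 * Real.sqrt m * ((∑ n ∈ Finset.Ico m K, (f (2 * n + 1) : ℝ) * rho ^ (2 * n + 1)) *
      Real.sqrt m) = (2 * (Real.sqrt m * Real.sqrt m)) *
        ∑ n ∈ Finset.Ico m K, (f (2 * n + 1) : ℝ) * rho ^ (2 * n + 1) := by ring
      _ ≤ 8 * mu * (Real.sqrt 2 * Real.sqrt m) := by rw [h4]; exact h6
      _ = _ := by ring
  exact le_of_mul_le_mul_left h7 (by positivity)

/-- The tail. -/
lemma tail_le (K : ℕ) : ∀ k m : ℕ, 1 ≤ m → K ≤ 2 ^ k * m →
    ∑ n ∈ Finset.Ico m K, (f (2 * n + 1) : ℝ) * rho ^ (2 * n + 1) ≤ 20 * mu / Real.sqrt m := by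
  have hrho := rho_pos
  have hmu := mu_pos
  have hs2 : Real.sqrt 2 * Real.sqrt 2 = 2 := Real.mul_self_sqrt (by norm_num)
  have hs2p : 0 < Real.sqrt 2 := Real.sqrt_pos.2 (by norm_num)
  have hs2a : Real.sqrt 2 ≤ 1.415 := by
    rw [Real.sqrt_le_left (by norm_num)]
    norm_num
  intro k
  induction k with
  | zero =>
    intro m hm hK
    rw [Finset.Ico_eq_empty (by omega), Finset.sum_empty]
    positivity
  | succ k ih =>
    intro m hm hK
    have hsm : 0 < Real.sqrt m := Real.sqrt_pos.2 (by exact_mod_cast hm)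
    rcases le_or_gt K (2 * m) with h | h
    · refine (block_le hm h).trans ?_
      apply div_le_div_of_nonneg_right _ hsm.le
      nlinarith
    · rw [← Finset.sum_Ico_consecutive _ (show m ≤ 2 * m by omega) h.le]
      have h1 := block_le hm (le_refl (2 * m))
      have h2 := ih (2 * m) (by omega) (by rw [pow_succ] at hK; linarith)
      have h3 : Real.sqrt ((2 * m : ℕ) : ℝ) = Real.sqrt 2 * Real.sqrt m := by
        push_cast
        exact Real.sqrt_mul (by norm_num) _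
      rw [h3] at h2
      have h4 : 20 * mu / (Real.sqrt 2 * Real.sqrt m) = 20 * mu * (Real.sqrt 2 / 2) / Real.sqrt m := by
        have : Real.sqrt 2 / 2 = 1 / Real.sqrt 2 := by
          field_simp
          linarith
        rw [this]
        field_simp
      rw [h4] at h2
      refine (add_le_add h1 h2).trans ?_
      rw [← add_div]
      apply div_le_div_of_nonneg_right _ hsm.le
      nlinarith

lemma tail_le' (m K : ℕ) (hm : 1 ≤ m) :
    ∑ n ∈ Finset.Ico m K, (f (2 * n + 1) : ℝ) * rho ^ (2 * n + 1) ≤ 20 * mu / Real.sqrt m := by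
  apply tail_le K K m hm
  have : K < 2 ^ K := Nat.lt_two_pow_self
  nlinarith

lemma one_le_mu : 1 ≤ mu := by
  have := ell_nonneg
  unfold mu
  rw [← Real.exp_zero]
  exact Real.exp_le_exp.2 this

lemma rho_eq : rho = 1 / Real.sqrt mu := by
  have h1 := rho_sq
  have h2 := mu_pos
  have h3 : 0 < Real.sqrt mu := Real.sqrt_pos.2 h2
  have h4 : Real.sqrt mu * Real.sqrt mu = mu := Real.mul_self_sqrt h2.le
  rw [eq_div_iff h3.ne']
  have h5 : (rho * Real.sqrt mu) ^ 2 = 1 := by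
    calc (rho * Real.sqrt mu) ^ 2 = rho ^ 2 * (Real.sqrt mu * Real.sqrt mu) := by ring
      _ = 1 := by rw [h4, h1]
  have h6 : 0 < rho * Real.sqrt mu := mul_pos rho_pos h3
  nlinarith

lemma meanders_div (n : ℕ) : (meanders (n + 1) : ℝ) / mu ^ (n + 1) =
    rho * ((f (2 * n + 1) : ℝ) * rho ^ (2 * n + 1)) := by
  rw [meanders_eq_f (n + 1) (by omega), show 2 * (n + 1) - 1 = 2 * n + 1 by omega]
  have h1 := rho_sq
  have h2 := mu_pos
  rw [div_eq_iff (by positivity)]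
  have : rho * ((f (2 * n + 1) : ℝ) * rho ^ (2 * n + 1)) * mu ^ (n + 1) =
      f (2 * n + 1) * (rho ^ 2 * mu) ^ (n + 1) := by
    rw [mul_pow, ← pow_mul]
    ring
  rw [this, h1]
  simp

lemma meanders_tail (m K : ℕ) (hm : 1 ≤ m) :
    ∑ n ∈ Finset.Ico m K, (meanders (n + 1) : ℝ) / mu ^ (n + 1) ≤
      20 * Real.sqrt mu / Real.sqrt m := by
  simp_rw [meanders_div]
  rw [← Finset.mul_sum]
  have h1 := tail_le' m K hm
  have h2 := rho_pos
  have h3 := mu_pos
  have h4 : Real.sqrt mu * Real.sqrt mu = mu := Real.mul_self_sqrt h3.le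
  have h5 : 0 < Real.sqrt mu := Real.sqrt_pos.2 h3
  calc rho * ∑ n ∈ Finset.Ico m K, (f (2 * n + 1) : ℝ) * rho ^ (2 * n + 1)
      ≤ rho * (20 * mu / Real.sqrt m) := by gcongr
    _ = 20 * (rho * mu) / Real.sqrt m := by ring
    _ = _ := by
      congr 2
      rw [rho_eq]
      field_simp
      rw [sq]
      exact h4.symm

/-- The tail bound in terms of the meander numbers. -/
lemma meanders_tail' (m K : ℕ) (hm : 1 ≤ m) :
    ∑ n ∈ Finset.Ico m K, (meanders n : ℝ) / mu ^ n ≤ 40 * Real.sqrt mu / Real.sqrt m := by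
  have h3 := mu_pos
  have h5 : 0 < Real.sqrt mu := Real.sqrt_pos.2 h3
  have hshift : ∀ a b : ℕ, ∑ n ∈ Finset.Ico (a + 1) (b + 1), (meanders n : ℝ) / mu ^ n =
      ∑ n ∈ Finset.Ico a b, (meanders (n + 1) : ℝ) / mu ^ (n + 1) := by
    intro a b
    rw [Finset.sum_Ico_add' (fun n => (meanders n : ℝ) / mu ^ n)]
  rcases Nat.lt_or_ge m K with hK | hK
  swap
  · rw [Finset.Ico_eq_empty (by omega), Finset.sum_empty]
    positivity
  obtain ⟨b, rfl⟩ : ∃ b, K = b + 1 := ⟨K - 1, by omega⟩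
  obtain ⟨a, rfl⟩ : ∃ a, m = a + 1 := ⟨m - 1, by omega⟩
  rw [hshift]
  rcases Nat.eq_zero_or_pos a with ha | ha
  · subst ha
    rw [Finset.sum_eq_sum_Ico_succ_bot (by omega)]
    have h1 := meanders_tail 1 b (le_refl 1)
    have h2 : (meanders (0 + 1) : ℝ) / mu ^ (0 + 1) ≤ 1 := by
      rw [meanders_eq_f (0 + 1) (by omega), show 2 * (0 + 1) - 1 = 1 by norm_num, f_one]
      rw [div_le_one (by positivity)]
      simpa using one_le_mu
    have h4 : 1 ≤ Real.sqrt mu := Real.one_le_sqrt.2 one_le_mu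
    simp only [Nat.cast_one, Real.sqrt_one, div_one, zero_add] at h1 h2 ⊢
    linarith
  · have h1 := meanders_tail a b ha
    refine h1.trans ?_
    have ha' : (1 : ℝ) ≤ a := by exact_mod_cast ha
    have hsa : 0 < Real.sqrt a := Real.sqrt_pos.2 (by linarith)
    have h2 : Real.sqrt ((a + 1 : ℕ) : ℝ) ≤ 2 * Real.sqrt a := by
      rw [Real.sqrt_le_left (by positivity), mul_pow, Real.sq_sqrt (by linarith)]
      push_cast
      linarith
    have h6 : 0 < Real.sqrt ((a + 1 : ℕ) : ℝ) := Real.sqrt_pos.2 (by positivity)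
    rw [div_le_div_iff₀ hsa h6]
    nlinarith

end Pool.Agent.Helper33.Meander
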