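import Pool.Agent.Helper33.Meander.Super

/-!
# Gluing three marked open meanders
-/

namespace Pool.Agent.Helper33.Meander

/-- An indecomposable open meander with seven crossings. -/
def S0 : ℕ → ℕ
  | 0 => 2
  | 1 => 1
  | 2 => 0
  | 3 => 3
  | 4 => 6
  | 5 => 5
  | 6 => 4
  | (k + 7) => k + 7

lemma S0_cases (k : ℕ) : (k = 0 ∧ S0 k = 2) ∨ (k = 1 ∧ S0 k = 1) ∨ (k = 2 ∧ S0 k = 0) ∨
    (k = 3 ∧ S0 k = 3) ∨ (k = 4 ∧ S0 k = 6) ∨ (k = 5 ∧ S0 k = 5) ∨ (k = 6 ∧ S0 k = 4) ∨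
    (7 ≤ k ∧ S0 k = k) := by
  rcases Nat.lt_or_ge k 7 with h | h
  · interval_cases k <;> simp [S0]
  · obtain ⟨c, rfl⟩ : ∃ c, k = c + 7 := ⟨k - 7, by omega⟩
    simp [S0]

lemma S0_OM : OM 7 S0 := by
  refine ⟨?_, ?_, ?_, ?_, ?_⟩
  · intro k hk
    have := S0_cases k
    omega
  · intro k hk
    have := S0_cases k
    omega
  · intro a b hab
    have h1 := S0_cases a
    have h2 := S0_cases b
    omega
  · intro a b hab hb hp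
    interval_cases b <;> interval_cases a <;> simp_all [S0, Crs, Btw]
  · intro a ha hp
    interval_cases a <;> simp_all [S0, Btw]

/-- The block obtained by gluing `T₁` and `T₂`. -/
def blk (N₁ : ℕ) (T₁ : ℕ → ℕ) (N₂ : ℕ) (T₂ : ℕ → ℕ) : ℕ → ℕ :=
  infl N₁ 1 T₁ (infl N₂ 5 T₂ S0)

section

variable {N₁ N₂ : ℕ} {T₁ T₂ : ℕ → ℕ}

lemma blk_OM (h₁ : N₁ % 2 = 1) (h₂ : N₂ % 2 = 1) (hT₁ : OM N₁ T₁) (hT₂ : OM N₂ T₂) :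
    OM (N₁ + N₂ + 5) (blk N₁ T₁ N₂ T₂) := by
  have h := OM.infl (i := 5) h₂ (by norm_num) hT₂ S0_OM (by norm_num)
  have h' := OM.infl (i := 1) h₁ (by omega) hT₁ h (by omega)
  rwa [show 7 + (N₂ - 1) + (N₁ - 1) = N₁ + N₂ + 5 by omega] at h'

lemma in1 : infl N₂ 5 T₂ S0 1 = 1 := by
  rw [infl_left (by norm_num)]; simp [sh, S0]

lemma in2 : infl N₂ 5 T₂ S0 2 = 0 := by
  rw [infl_left (by norm_num)]; simp [sh, S0]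

lemma in4 : infl N₂ 5 T₂ S0 4 = 6 + (N₂ - 1) := by
  rw [infl_left (by norm_num)]; simp [sh, S0]

lemma blk_c (h₁ : 1 ≤ N₁) : blk N₁ T₁ N₂ T₂ (N₁ + 1) = 0 := by
  have := infl_right (m := N₁) (i := 1) (X := T₁) (T := infl N₂ 5 T₂ S0) (k := 2) h₁ (by norm_num)
  rw [show 2 + (N₁ - 1) = N₁ + 1 by omega, in1, in2] at this
  simpa [blk, sh] using this

lemma blk_e (h₁ : 1 ≤ N₁) (h₂ : 1 ≤ N₂) : blk N₁ T₁ N₂ T₂ (N₁ + 3) = N₁ + N₂ + 4 := by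
  have := infl_right (m := N₁) (i := 1) (X := T₁) (T := infl N₂ 5 T₂ S0) (k := 4) h₁ (by norm_num)
  rw [show 4 + (N₁ - 1) = N₁ + 3 by omega, in1, in4] at this
  unfold blk
  rw [this]
  unfold sh
  split_ifs <;> omega

lemma blk_1 {j : ℕ} (h : j < N₁) : blk N₁ T₁ N₂ T₂ (1 + j) = 1 + T₁ j := by
  unfold blk
  rw [infl_mid h, in1]

lemma blk_2 (h₁ : 1 ≤ N₁) {j : ℕ} (h : j < N₂) :
    blk N₁ T₁ N₂ T₂ (N₁ + 4 + j) = N₁ + 4 + T₂ j := by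
  have := infl_right (m := N₁) (i := 1) (X := T₁) (T := infl N₂ 5 T₂ S0) (k := 5 + j) h₁
    (by omega)
  rw [show 5 + j + (N₁ - 1) = N₁ + 4 + j by omega, in1, infl_mid h] at this
  unfold blk
  rw [this]
  have : S0 5 = 5 := rfl
  rw [this]
  unfold sh
  split_ifs <;> omega

end

/-- Marked open meanders. -/
abbrev MO : Type := {x : ℕ × (ℕ → ℕ) × ℕ // x.1 % 2 = 1 ∧ OM x.1 x.2.1 ∧ x.2.2 < x.1}

/-- Doubly marked open meanders. -/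
abbrev MO2 : Type :=
  {x : ℕ × (ℕ → ℕ) × ℕ × ℕ // x.1 % 2 = 1 ∧ OM x.1 x.2.1 ∧ x.2.2.1 < x.1 ∧ x.2.2.2 < x.1}

/-- Gluing. -/
def glue (p : MO × MO × MO) : MO2 :=
  ⟨(p.1.1.1 + (p.2.1.1.1 + p.2.2.1.1 + 5 - 1),
    infl (p.2.1.1.1 + p.2.2.1.1 + 5) p.1.1.2.2
      (blk p.2.1.1.1 p.2.1.1.2.1 p.2.2.1.1 p.2.2.1.2.1) p.1.1.2.1,
    p.1.1.2.2 + 1 + p.2.1.1.2.2,
    p.1.1.2.2 + p.2.1.1.1 + 4 + p.2.2.1.2.2), by
    obtain ⟨⟨⟨N₀, T₀, i₀⟩, a0, b0, c0⟩, ⟨⟨N₁, T₁, i₁⟩, a1, b1, c1⟩, ⟨⟨N₂, T₂, i₂⟩, a2, b2, c2⟩⟩ := p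
    simp only at a0 b0 c0 a1 b1 c1 a2 b2 c2 ⊢
    refine ⟨by omega, ?_, by omega, by omega⟩
    exact OM.infl (by omega) a0 (blk_OM a1 a2 b1 b2) b0 c0⟩

/-- One half of the decoding. -/
lemma decode_sub {N₀ i₀ N₁ i₁ N₂ i₂ i₀' b' m₁ m₂ : ℕ} {T₀ T₁ T₂ T₀' B' : ℕ → ℕ}
    (a1 : N₁ % 2 = 1) (a2 : N₂ % 2 = 1)
    (b1 : OM N₁ T₁) (b2 : OM N₂ T₂) (c1 : i₁ < N₁)
    (hm₁ : m₁ = i₀ + 1 + i₁) (hm₂ : m₂ = i₀ + N₁ + 4 + i₂)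
    (hB' : OM b' B') (h1' : i₀' ≤ m₁) (h2' : m₂ < i₀' + b')
    (hR : OM N₀ (infl (N₁ + N₂ + 5) i₀ (blk N₁ T₁ N₂ T₂) T₀))
    (h : infl (N₁ + N₂ + 5) i₀ (blk N₁ T₁ N₂ T₂) T₀ = infl b' i₀' B' T₀') :
    i₀' ≤ i₀ ∧ i₀ + (N₁ + N₂ + 5) ≤ i₀' + b' ∧ T₀' i₀' ≤ T₀ i₀ := by
  have hB := blk_OM a1 a2 b1 b2
  have e1 : ∀ j < N₁ + N₂ + 5, infl b' i₀' B' T₀' (i₀ + j) = T₀ i₀ + blk N₁ T₁ N₂ T₂ j := by
    intro j hj
    rw [← h, infl_mid hj]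
  have e2 : ∀ j < b', infl b' i₀' B' T₀' (i₀' + j) = T₀' i₀' + B' j := fun j hj => infl_mid hj
  have hinj : Function.Injective (infl b' i₀' B' T₀') := h ▸ hR.inj
  -- the values of the two extreme points
  have p1 := e1 (N₁ + 1) (by omega)
  rw [blk_c (by omega)] at p1
  have p2 := e1 (N₁ + 3) (by omega)
  rw [blk_e (by omega) (by omega)] at p2
  have q1 := e2 (i₀ + (N₁ + 1) - i₀') (by omega)
  rw [show i₀' + (i₀ + (N₁ + 1) - i₀') = i₀ + (N₁ + 1) by omega, p1] at q1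
  have r1 := hB'.lt (i₀ + (N₁ + 1) - i₀') (by omega)
  have q2 := e2 (i₀ + (N₁ + 3) - i₀') (by omega)
  rw [show i₀' + (i₀ + (N₁ + 3) - i₀') = i₀ + (N₁ + 3) by omega, p2] at q2
  have r2 := hB'.lt (i₀ + (N₁ + 3) - i₀') (by omega)
  -- every index of the first block is in the second one
  have key : ∀ j < N₁ + N₂ + 5, ∃ j' < b', i₀ + j = i₀' + j' := by
    intro j hj
    have s1 := e1 j hj
    have s2 := hB.lt j hj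
    obtain ⟨j', hj', s3⟩ := hB'.surj (w := T₀ i₀ + blk N₁ T₁ N₂ T₂ j - T₀' i₀') (by omega)
    refine ⟨j', hj', hinj ?_⟩
    rw [s1, e2 j' hj', s3]
    omega
  obtain ⟨j', hj', k1⟩ := key 0 (by omega)
  obtain ⟨j'', hj'', k2⟩ := key (N₁ + N₂ + 4) (by omega)
  refine ⟨by omega, by omega, by omega⟩

theorem glue_injective : Function.Injective glue := by
  rintro ⟨⟨⟨N₀, T₀, i₀⟩, a0, b0, c0⟩, ⟨⟨N₁, T₁, i₁⟩, a1, b1, c1⟩, ⟨⟨N₂, T₂, i₂⟩, a2, b2, c2⟩⟩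
    ⟨⟨⟨N₀', T₀', i₀'⟩, a0', b0', c0'⟩, ⟨⟨N₁', T₁', i₁'⟩, a1', b1', c1'⟩,
      ⟨⟨N₂', T₂', i₂'⟩, a2', b2', c2'⟩⟩ h
  have h' := congrArg Subtype.val h
  simp only [glue, Prod.mk.injEq] at h'
  simp only at a0 b0 c0 a1 b1 c1 a2 b2 c2 a0' b0' c0' a1' b1' c1' a2' b2' c2'
  obtain ⟨hN, hR, hm1, hm2⟩ := h'
  have hB := blk_OM a1 a2 b1 b2
  have hB' := blk_OM a1' a2' b1' b2'
  have g1 := OM.infl (i := i₀) (by omega) a0 hB b0 c0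
  have g2 := OM.infl (i := i₀') (by omega) a0' hB' b0' c0'
  have d1 := decode_sub (T₀ := T₀) (i₀ := i₀) (i₀' := i₀') (b' := N₁' + N₂' + 5)
    (i₂ := i₂) (m₁ := i₀ + 1 + i₁) (m₂ := i₀ + N₁ + 4 + i₂) a1 a2 b1 b2 c1 rfl rfl hB' (by omega) (by omega) g1 hR
  have d2 := decode_sub (T₀ := T₀') (i₀ := i₀') (i₀' := i₀) (b' := N₁ + N₂ + 5)
    (i₂ := i₂') (m₁ := i₀' + 1 + i₁') (m₂ := i₀' + N₁' + 4 + i₂') a1' a2' b1' b2' c1' rfl rfl hB (by omega) (by omega) g2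
    hR.symm
  obtain rfl : i₀ = i₀' := by omega
  have hb : N₁ + N₂ + 5 = N₁' + N₂' + 5 := by omega
  obtain rfl : N₀ = N₀' := by omega
  have hv : T₀ i₀ = T₀' i₀ := by omega
  rw [hb] at hR hB
  have hblk : blk N₁ T₁ N₂ T₂ = blk N₁' T₁' N₂' T₂' := by
    refine (block_eq (v := T₀ i₀) (v' := T₀' i₀) (by omega) hB hB' ?_).2
    intro j hj
    have := congrFun hR (i₀ + j)
    rwa [infl_mid hj, infl_mid hj] at this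
  have hT0 : T₀ = T₀' := infl_outer_eq (by omega) b0 b0' hv hR
  have hN1 : N₁ = N₁' := by
    have e1 := blk_c (T₁ := T₁) (N₂ := N₂) (T₂ := T₂) (show 1 ≤ N₁ by omega)
    have e2 := blk_c (T₁ := T₁') (N₂ := N₂') (T₂ := T₂') (show 1 ≤ N₁' by omega)
    rw [← hblk] at e2
    have := hB.inj (e1.trans e2.symm)
    omega
  subst hN1
  obtain rfl : N₂ = N₂' := by omega
  have hT1 : T₁ = T₁' := by
    apply b1.ext' b1'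
    intro k hk
    have e1 := blk_1 (T₁ := T₁) (N₂ := N₂) (T₂ := T₂) hk
    have e2 := blk_1 (T₁ := T₁') (N₂ := N₂) (T₂ := T₂') hk
    rw [← hblk] at e2
    omega
  have hT2 : T₂ = T₂' := by
    apply b2.ext' b2'
    intro k hk
    have e1 := blk_2 (T₁ := T₁) (N₂ := N₂) (T₂ := T₂) (show 1 ≤ N₁ by omega) hk
    have e2 := blk_2 (T₁ := T₁') (N₂ := N₂) (T₂ := T₂') (show 1 ≤ N₁ by omega) hk
    rw [← hblk] at e2
    omega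
  have hi1 : i₁ = i₁' := by omega
  have hi2 : i₂ = i₂' := by omega
  subst hT0 hT1 hT2 hi1 hi2
  rfl

end Pool.Agent.Helper33.Meander
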